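import Pool.Agent.Helper13.TW.StE

/-!
# Project TW, part F: recognition of 2-manifolds, final statements
-/

set_option autoImplicit false

namespace Pool.Agent.Helper13.TW

open Set Topology Pool.Agent.Helper13.TR

/-- HOM2.  Transport of orientations.  Uses `StPSH`.
PROOF.  `push` of a homeomorphism is an isomorphism of the chain complexes which maps `cin S` onto `cin` of the image. -/
def StHOM2 : Prop := ∀ (S S' : Type) [TopologicalSpace S] [TopologicalSpace S'] (φ : S' ≃ₜ S) (ω : S → Ch S 2 → ℤ), WS S ω →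
  WS S' fun x e => ω (φ x) (push ⟨φ, φ.continuous⟩ 2 e)

/-- GRX.  Good situations exist.  Uses `StWSX`, `StOPN2`, `StHOM2`, `StPSH`, `StMON`.
PROOF.  `U, ω` from WSX.  `C₀` = path component of `x` in `U`, open.  There is `y₀ ∈ C₀`, `y₀ ≠ x`: otherwise `{x}` is open; then in `↥U` the only 2-simplex meeting `x` is the constant one `κ₂` (simplices are connected), `e ∈ Cyc {x} 2` is `m κ₂ + e'`, `e' ∈ cin {x}ᶜ 2`, `bd (m κ₂) = m κ₁` (constant 1-simplex, signs `+ - +`), so `m = 0`, `e ∈ cin {x}ᶜ 2 ⊆ Nul`,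
`ω x e = 0` for all such `e`: contradiction to `WS.one`.  `S₀` = path component of `x` in `C₀ ∖ {y₀}`: open, path connected.  It is not compact: otherwise it is open and closed in `X` and contains the connected set `C₀`, but `y₀ ∉ S₀`.  `WS ↥S₀`: OPN2 for the open subset of `↥U` given by `S₀ ⊆ U` and HOM2.  `LH1` for `x`, `S₀`: `V₀ ⊆ S₀`, cycles in `V₀` bound in `S₀`
(by chains in `cin S₀ 2`); `V` = the points of `↥S₀` in `V₀`; PSH (5), (4).  `LH1 ↥S₀`: the sets of `LH1 X` for open subsets of `S₀`, PSH. -/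
def StGRX : Prop := ∀ (X : Type) [TopologicalSpace X] [TopologicalSpace.MetrizableSpace X] [LocallyPathConnectedSpace X], HM2 X → LH1 X → ∀ x : X,
  ∃ (S₀ : Set X) (hx : x ∈ S₀) (ω : ↥S₀ → Ch ↥S₀ 2 → ℤ) (V : Set ↥S₀), IsOpen S₀ ∧ PathConnectedSpace ↥S₀ ∧ GR ↥S₀ ω V ∧ (⟨x, hx⟩ : ↥S₀) ∈ V ∧ LH1 ↥S₀

/-- FIN2.  Homology 2-manifolds are 2-manifolds.  Uses `StGRX`, `StSCE`, `StTWO`, `StCSS`, `StMD2`, `StMD3`, `StBF`.
PROOF.  GRX; a metric on `↥S₀` (`TopologicalSpace.metrizableSpaceMetric`).  SCE (`O = univ`): a cell `J` with `x ∈ Ins ω J`.  `CSy` for the cells of `↥S₀` (CSS) and for `MCell` (MD2, MD3); `MCell (closedBall 0 1) (sphere 0 1)` with the identity.  BF: a homeomorphism of `cl ω J` onto the closed disc, `J` to the circle, so `Ins ω J = cl ω J ∖ J` onto the open disc.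
`U` = image of `Ins ω J` in `X`, open (TWO). -/
def StFIN2 : Prop := ∀ (X : Type) [TopologicalSpace X] [TopologicalSpace.MetrizableSpace X] [LocallyPathConnectedSpace X], HM2 X → LH1 X → ∀ x : X,
  ∃ U : Set X, IsOpen U ∧ x ∈ U ∧ ∃ f : ↥U → ℂ, IsOpenEmbedding f

/-- TR1.  From the product to the factor.  Uses `StPSH`.
PROOF.  As `StTRA` (`Pool/Agent/Helper13/TR/StC.lean`, proof in `Pool/Agent/Helper63/TR/M_TRA.lean`) with `ℝ × A` instead of `ℝ × ℝ × A`. -/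
def StTR1 : Prop := ∀ (W A : Type) [TopologicalSpace W] [TopologicalSpace A] (_ : W ≃ₜ ℝ × A),
  (LH1 W → LH1 A) ∧ (LocallyPathConnectedSpace W → LocallyPathConnectedSpace A)

/-- FN3.  Manifold points.  Uses `StFN1`, `StOPN`, `StHOM`, `StTR1`, `StDSC`, `StFIN2`, `StPSH`, `StMON`.
PROOF.  FN1: `U₁ ∋ x`, `A`, `φ : ↥U₁ ≃ₜ ℝ × A`.  `A` is metrizable (it embeds in `↥U₁` by `a ↦ φ⁻¹ (0, a)`).  `↥U₁` is locally path connected, `HM ↥U₁` (OPN), `LH1 ↥U₁` (from `LH1 X`: for an open set `O ⊆ U₁` take the set of `LH1 X` for `O`; PSH).  So `A` is locally path connected, `LH1 A` (TR1), `HM (ℝ × A)` (HOM), `HM2 A` (DSC).  FIN2 for `a = (φ x).2`: `U₂`, `f₂ : ↥U₂ → ℂ`.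
`U` = the points `w ∈ U₁` with `(φ w).2 ∈ U₂`; `w ↦ ((φ w).1, f₂ (φ w).2)` is an open embedding in `ℝ × ℂ ≃ₜ ℝ × ℝ × ℝ`. -/
def StFN3 : Prop := ∀ (X Y : Type) [TopologicalSpace X] [TopologicalSpace.MetrizableSpace X] [LocallyCompactSpace X] [LocallyPathConnectedSpace X]
  [TopologicalSpace Y] [TopologicalSpace.MetrizableSpace Y], HM X → LH1 X → IndLT 3 Y →
  ∀ (x : X) (N : Set X), N ∈ 𝓝 x → ∀ j : ↥N → ℝ × Y, IsEmbedding j →
    ∃ U : Set X, IsOpen U ∧ x ∈ U ∧ ∃ f : ↥U → ℝ × ℝ × ℝ, IsOpenEmbedding f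

end Pool.Agent.Helper13.TW
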