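import Pool.Agent.Helper10.TW.M_ACC
import Pool.Agent.Helper10.TW.M_OPN2
import Pool.Agent.Helper13.TRM.M_WIN
import Pool.Agent.Helper15.TW.M_MD2
import Pool.Agent.Helper15.TW.M_S3A
import Pool.Agent.Helper16.TW.M_LIN
import Pool.Agent.Helper2.TW.M_SIM
import Pool.Agent.Helper22.TW.M_LRC
import Pool.Agent.Helper23.TW.M_GRX
import Pool.Agent.Helper25.TW.M_CLS
import Pool.Agent.Helper25.TW.M_JSP
import Pool.Agent.Helper26.TW.M_ARB
import Pool.Agent.Helper29.TW.M_CYC2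
import Pool.Agent.Helper29.TW.M_TWO
import Pool.Agent.Helper32.TW.M_BF
import Pool.Agent.Helper32.TW.M_PRE
import Pool.Agent.Helper34.TW.M_WSX
import Pool.Agent.Helper36.TW.M_INF
import Pool.Agent.Helper37.TW.M_CHN
import Pool.Agent.Helper37.TW.M_FIN2
import Pool.Agent.Helper38.TW.M_AC1
import Pool.Agent.Helper45.TW.M_ARN
import Pool.Agent.Helper53.TW.M_HOM2
import Pool.Agent.Helper55.TW.M_ULC
import Pool.Agent.Helper57.TW.M_SCE
import Pool.Agent.Helper58.TW.M_LRA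
import Pool.Agent.Helper6.TW.M_UAR
import Pool.Agent.Helper61.TW.M_RAY2
import Pool.Agent.Helper66.TW.M_LRB
import Pool.Agent.Helper66.TW.M_SDM
import Pool.Agent.Helper71.TW.M_LCO
import Pool.Agent.Helper72.TW.M_CSS
import Pool.Agent.Helper72.TW.M_THE
import Pool.Agent.Helper75.TW.M_CMP
import Pool.Agent.Helper76.TW.M_FN3
import Pool.Agent.Helper76.TW.M_JIN
import Pool.Agent.Helper78.TW.M_SCL
import Pool.Agent.Helper78.TW.M_SMC
import Pool.Agent.Helper82.TW.M_ARX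
import Pool.Agent.Helper84.TW.M_TR1
import Pool.Agent.Helper86.TW.M_WD
import Pool.Agent.Helper87.TW.M_MD1
import Pool.Agent.Helper94.TW.M_DSC
import Pool.Agent.Helper97.TW.M_MD3
import Pool.Agent.Helper97.TW.M_S3B
import Pool.Agent.Helper13.TR.Asm
import Pool.Agent.Helper13.TW.StF

/-!
# Project TW: assembly
-/

set_option autoImplicit false

namespace Pool.Agent.Helper13.TW

open Pool.Agent.Helper13.TR

theorem aARB : StARB := Pool.Agent.Helper26.TW.hARB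
theorem aARX : StARX := Pool.Agent.Helper82.TW.hARX
theorem aSCL : StSCL := Pool.Agent.Helper78.TW.hSCL aARB
theorem aUAR : StUAR := Pool.Agent.Helper6.TW.hUAR aARB aSCL
theorem aINF : StINF := Pool.Agent.Helper36.TW.hINF
theorem aLIN : StLIN := Pool.Agent.Helper16.TW.hLIN aARB aSCL
theorem aDSC : StDSC := Pool.Agent.Helper94.TW.hDSC aMV aCON aMON aSDA aPSH aPRI
theorem aOPN2 : StOPN2 := Pool.Agent.Helper10.TW.hOPN2 aSM aSDA aPSH aMON aEXI
theorem aWSX : StWSX := Pool.Agent.Helper34.TW.hWSX aSM aSDA aPSH aMON aEXI aCON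
theorem aRAY2 : StRAY2 := Pool.Agent.Helper61.TW.hRAY2 aMV aCON aMON aSDA
theorem aCYC2 : StCYC2 := Pool.Agent.Helper29.TW.hCYC2 aRAY2 aMV aMON aLIN aSDA
theorem aLCO : StLCO := Pool.Agent.Helper71.TW.hLCO aCYC2 aJOI aMON aSDA
theorem aARN : StARN := Pool.Agent.Helper45.TW.hARN aRAY2 aJOI aMON aSDA aARB aSCL aLIN aOPN2 aLCO
theorem aWIN : StWIN := Pool.Agent.Helper13.TRM.hWIN aMON aCON aSDA
theorem aAC1 : StAC1 := Pool.Agent.Helper38.TW.hAC1 aPRI aPSH aSDA aMON aJOI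
theorem aWD : StWD := Pool.Agent.Helper86.TW.hWD aWIN aAC1 aARB aSCL aMON aSDA
theorem aTWO : StTWO := Pool.Agent.Helper29.TW.hTWO aARN aWIN aWD aSCL aAC1 aMON
theorem aCLS : StCLS := Pool.Agent.Helper25.TW.hCLS aTWO aARN aSCL aARB
theorem aTHE : StTHE := Pool.Agent.Helper72.TW.hTHE aTWO aCLS aWIN aWD aARB aSCL aAC1
theorem aULC : StULC := Pool.Agent.Helper55.TW.hULC aTWO aCLS aSCL aLIN aOPN2 aLCO
theorem aACC : StACC := Pool.Agent.Helper10.TW.hACC aULC aINF aARX aTWO aCLS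
theorem aSMC : StSMC := Pool.Agent.Helper78.TW.hSMC aTWO aUAR aWD aSCL aARB aTHE
theorem aSDM : StSDM := Pool.Agent.Helper66.TW.hSDM aSDA aMSH aLNA aABD
theorem aCHN : StCHN := Pool.Agent.Helper37.TW.hCHN aSDM aARX aWIN aAC1 aARB aMON aSDA
theorem aSIM : StSIM := Pool.Agent.Helper2.TW.hSIM aARB aWIN aAC1 aWD aMON aSDA
theorem aSCE : StSCE := Pool.Agent.Helper57.TW.hSCE aCHN aSIM aWIN aWD aSM aSDA aCON aMON
theorem aCMP : StCMP := Pool.Agent.Helper75.TW.hCMP aARB aSCL aTWO aCLS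
theorem aJIN : StJIN := Pool.Agent.Helper76.TW.hJIN aCMP aTWO aCLS aTHE aLIN aOPN2 aLCO aSCL aARB
theorem aPRE : StPRE := Pool.Agent.Helper32.TW.hPRE aARN aARB aSCL aARX aTWO aCLS
theorem aS3A : StS3A := Pool.Agent.Helper15.TW.hS3A aPRE aCMP aJIN aSMC aTHE aTWO aCLS aSCL aARB
theorem aS3B : StS3B := Pool.Agent.Helper97.TW.hS3B aS3A aSCE aTHE aTWO aCLS
theorem aCSS : StCSS := Pool.Agent.Helper72.TW.hCSS aTWO aTHE aACC aS3B aSCL aARB
theorem aJSP : StJSP := Pool.Agent.Helper25.TW.hJSP aARB aSCL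
theorem aLRC : StLRC := Pool.Agent.Helper22.TW.hLRC
theorem aLRA : StLRA := Pool.Agent.Helper58.TW.hLRA aJSP aLRC
theorem aLRB : StLRB := Pool.Agent.Helper66.TW.hLRB aLRA aLRC
theorem aBF : StBF := Pool.Agent.Helper32.TW.hBF aLRB aLRC aARB
theorem aMD1 : StMD1 := Pool.Agent.Helper87.TW.hMD1 aARB aSCL
theorem aMD2 : StMD2 := Pool.Agent.Helper15.TW.hMD2 aMD1 aSCL aARB
theorem aMD3 : StMD3 := Pool.Agent.Helper97.TW.hMD3 aMD1 aARB
theorem aHOM2 : StHOM2 := Pool.Agent.Helper53.TW.hHOM2 aPSH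
theorem aGRX : StGRX := Pool.Agent.Helper23.TW.hGRX aWSX aOPN2 aHOM2 aPSH aMON
theorem aFIN2 : StFIN2 := Pool.Agent.Helper37.TW.hFIN2 aGRX aSCE aTWO aCSS aMD2 aMD3 aBF
theorem aTR1 : StTR1 := Pool.Agent.Helper84.TW.hTR1 aPSH
theorem aFN3 : StFN3 := Pool.Agent.Helper76.TW.hFN3 aFN1 aOPN aHOM aTR1 aDSC aFIN2 aPSH aMON

end Pool.Agent.Helper13.TW
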