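import Pool.Agent.Helper13.TR.MainDefs

/-!
# Project TW (MP_a45945_gt, extension of TR): recognition of 2-manifolds, definitions

Arcs, simple closed curves, winding numbers, cells, cell systems.
-/

set_option autoImplicit false

namespace Pool.Agent.Helper13.TW

open Set Topology Pool.Agent.Helper13.TR

/-! ## Arcs and simple closed curves -/

section arcs

variable {S : Type} [TopologicalSpace S]

/-- `D` is an arc from `p` to `q`. -/
def IsArc (D : Set S) (p q : S) : Prop :=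
  ∃ γ : Path p q, Function.Injective γ ∧ range γ = D

/-- `J` is the union of the arcs `D₁`, `D₂` from `p` to `q`, which meet only in `p` and `q`. -/
def Spl (J : Set S) (p q : S) (D₁ D₂ : Set S) : Prop :=
  IsArc D₁ p q ∧ IsArc D₂ p q ∧ D₁ ∩ D₂ = {p, q} ∧ D₁ ∪ D₂ = J

/-- simple closed curve -/
def IsSCC (J : Set S) : Prop := ∃ p q D₁ D₂, Spl J p q D₁ D₂

end arcs

/-! ## Two-dimensional homology manifolds -/

section hom

variable {X : Type} [TopologicalSpace X]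

/-- `c` is a free generator of the infinite cyclic group `H_2(X, X ∖ {y})`. -/
def Gen2 (y : X) (c : Ch X 2) : Prop :=
  (∀ κ ∈ Cyc {y} 2, ∃ m : ℤ, κ - m • c ∈ Nul {y} 2) ∧ ∀ m : ℤ, m • c ∈ Nul {y} 2 → m = 0

/-- Locally oriented homology 2-manifold (working form). -/
structure HM2 (X : Type) [TopologicalSpace X] : Prop where
  low : ∀ x : X, PP {x} 1
  ori : ∀ x : X, ∃ N : Set X, IsOpen N ∧ x ∈ N ∧ ∃ c ∈ Cyc N 2, ∀ y ∈ N, Gen2 y c

/-- `ω x : H_2(S, S ∖ {x}) → ℤ` are isomorphisms, locally constant in `x` (an orientation);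
`H_1(S, S ∖ {x}) = 0`. -/
structure WS (S : Type) [TopologicalSpace S] (ω : S → Ch S 2 → ℤ) : Prop where
  low : ∀ x : S, PP {x} 1
  add : ∀ x : S, ∀ e ∈ Cyc {x} 2, ∀ e' ∈ Cyc {x} 2, ω x (e + e') = ω x e + ω x e'
  nul : ∀ x : S, ∀ e ∈ Nul {x} 2, ω x e = 0
  ker : ∀ x : S, ∀ e ∈ Cyc {x} 2, ω x e = 0 → e ∈ Nul {x} 2
  one : ∀ x : S, ∃ e ∈ Cyc {x} 2, ω x e = 1
  loc : ∀ (e : Ch S 2) (O : Set S), IsOpen O → bd 1 e ∈ cin Oᶜ 1 → ∀ x y : S, JoinedIn O x y →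
    ω x e = ω y e

/-- The winding number of the 1-cycle `z` about `x`: the value of `ω x` on a chain bounded by `z`. -/
noncomputable def W (ω : X → Ch X 2 → ℤ) (z : Ch X 1) (x : X) : ℤ := by
  classical
  exact if h : ∃ e : Ch X 2, bd 1 e = z then ω x (Classical.choose h) else 0

/-- A 1-chain in the arc `D` with boundary `[q] - [p]`. -/
noncomputable def dch (D : Set X) (p q : X) : Ch X 1 := by
  classical
  exact if h : ∃ d ∈ cin D 1, bd 0 d = Finsupp.single (pt q) 1 - Finsupp.single (pt p) 1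
    then Classical.choose h else 0

/-- The winding number about `x` of the closed curve: `D₁` from `p` to `q`, back along `D₂`. -/
noncomputable def wd (ω : X → Ch X 2 → ℤ) (D₁ D₂ : Set X) (p q x : X) : ℤ :=
  W ω (dch D₁ p q - dch D₂ p q) x

/-- the interior of a simple closed curve -/
def Ins (ω : X → Ch X 2 → ℤ) (J : Set X) : Set X :=
  {x | x ∉ J ∧ ∃ p q D₁ D₂, Spl J p q D₁ D₂ ∧ wd ω D₁ D₂ p q x ≠ 0}

/-- the closed interior -/
def cl (ω : X → Ch X 2 → ℤ) (J : Set X) : Set X := J ∪ Ins ω J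

/-- the exterior of a simple closed curve -/
def Out (ω : X → Ch X 2 → ℤ) (J : Set X) : Set X := (cl ω J)ᶜ

/-- The good situation: `S` is not compact, 1-cycles in the open set `V` bound in `S`. -/
structure GR (S : Type) [TopologicalSpace S] (ω : S → Ch S 2 → ℤ) (V : Set S) : Prop where
  ws : WS S ω
  nc : ¬ CompactSpace S
  op : IsOpen V
  bv : ∀ z ∈ cin V 1, bd 0 z = 0 → ∃ e : Ch S 2, bd 1 e = z

/-- simple closed curve in `V` with points inside -/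
def Ess (ω : X → Ch X 2 → ℤ) (V J : Set X) : Prop := IsSCC J ∧ J ⊆ V ∧ (Ins ω J).Nonempty

/-- ... and the interior is contained in `V` -/
def Cel (ω : X → Ch X 2 → ℤ) (V J : Set X) : Prop := Ess ω V J ∧ Ins ω J ⊆ V

/-- `P` is a crosscut of `J` from `p` to `q` -/
def Crs (ω : X → Ch X 2 → ℤ) (J : Set X) (p q : X) (P : Set X) : Prop :=
  IsArc P p q ∧ P ∩ J = {p, q} ∧ P \ {p, q} ⊆ Ins ω J

/-- finite subdivisions of the cell bounded by `J`, by successive crosscuts, such that all cells of the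
subdivision have the property `Φ` -/
inductive GS (ω : X → Ch X 2 → ℤ) (Φ : Set X → Prop) : Set X → Prop
  | leaf (J : Set X) : Φ J → GS ω Φ J
  | node (J : Set X) (p q : X) (D₁ D₂ P : Set X) : Spl J p q D₁ D₂ → Crs ω J p q P →
      GS ω Φ (D₁ ∪ P) → GS ω Φ (D₂ ∪ P) → GS ω Φ J

end hom

/-! ## Closed chains of small arcs -/

section chains

variable {S : Type} [MetricSpace S]

/-- `α i` is an arc from `x i` to `x (i + 1)` in `Q` of diameter `< ρ`, for `i < n`, and `x n = x 0` -/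
def Chn (Q : Set S) (ρ : ℝ) (n : ℕ) (x : ℕ → S) (α : ℕ → Set S) : Prop :=
  x n = x 0 ∧ ∀ i < n, IsArc (α i) (x i) (x (i + 1)) ∧ α i ⊆ Q ∧ Metric.diam (α i) < ρ

/-- the winding number of the closed chain about `a` -/
noncomputable def wch (ω : S → Ch S 2 → ℤ) (n : ℕ) (x : ℕ → S) (α : ℕ → Set S) (a : S) : ℤ :=
  W ω (∑ i ∈ Finset.range n, dch (α i) (x i) (x (i + 1))) a

/-- 1-cycles in sets `C ⊆ Q` of diameter `< 4 ρ` have winding number zero about `a` -/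
def Tame (ω : S → Ch S 2 → ℤ) (Q : Set S) (a : S) (ρ : ℝ) : Prop :=
  ∀ C : Set S, C ⊆ Q → Metric.diam C < 4 * ρ → ∀ u ∈ cin C 1, bd 0 u = 0 → W ω u a = 0

end chains

/-! ## Cell systems -/

/-- The cell `E` with boundary curve `J = D₁ ∪ D₂` is cut by the arc `P` from `p` to `q` into `E₁`
(with boundary curve `D₁ ∪ P`) and `E₂` (with boundary curve `D₂ ∪ P`). -/
def Splt {X : Type} [TopologicalSpace X] (E J : Set X) (p q : X) (D₁ D₂ P E₁ E₂ : Set X) : Prop :=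
  Spl J p q D₁ D₂ ∧ IsArc P p q ∧ P ∩ J = {p, q} ∧ E₁ ∪ E₂ = E ∧ E₁ ∩ E₂ = P ∧ E₁ ∩ J = D₁ ∧
    E₂ ∩ J = D₂

/-- finite subdivisions into cells of diameter `< ε` -/
inductive GT {X : Type} [MetricSpace X] (cell : Set X → Set X → Prop) (ε : ℝ) :
    Set X → Set X → Prop
  | leaf (E J : Set X) : Metric.diam E < ε → GT cell ε E J
  | node (E J : Set X) (p q : X) (D₁ D₂ P E₁ E₂ : Set X) : Splt E J p q D₁ D₂ P E₁ E₂ →
      cell E₁ (D₁ ∪ P) → cell E₂ (D₂ ∪ P) → GT cell ε E₁ (D₁ ∪ P) → GT cell ε E₂ (D₂ ∪ P) →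
      GT cell ε E J

/-- cell system -/
structure CSy {X : Type} [MetricSpace X] (cell : Set X → Set X → Prop) : Prop where
  cpt : ∀ E J, cell E J → IsCompact E ∧ J ⊆ E ∧ IsSCC J
  spl : ∀ E J p q D₁ D₂, cell E J → Spl J p q D₁ D₂ → ∃ P E₁ E₂, Splt E J p q D₁ D₂ P E₁ E₂ ∧
    cell E₁ (D₁ ∪ P) ∧ cell E₂ (D₂ ∪ P)
  fin : ∀ ε : ℝ, 0 < ε → ∀ E J, cell E J → GT cell ε E J

/-- pairs of cells with a bijection of the boundary curves -/
structure MP (X X' : Type) where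
  E : Set X
  J : Set X
  E' : Set X'
  J' : Set X'
  h : X → X'

section mp

variable {X X' : Type} [MetricSpace X] [MetricSpace X']

/-- a valid pair: the map `h` is a homeomorphism of the boundary curves -/
def Val (cell : Set X → Set X → Prop) (cell' : Set X' → Set X' → Prop) (M : MP X X') : Prop :=
  cell M.E M.J ∧ cell' M.E' M.J' ∧ ContinuousOn M.h M.J ∧ InjOn M.h M.J ∧ M.h '' M.J = M.J'

/-- a finite joint subdivision of a pair -/
structure LR (cell : Set X → Set X → Prop) (cell' : Set X' → Set X' → Prop) (M : MP X X')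
    (L : Set (MP X X')) : Prop where
  fin : L.Finite
  val : ∀ N ∈ L, Val cell cell' N
  un : ⋃ N ∈ L, N.E = M.E
  un' : ⋃ N ∈ L, N.E' = M.E'
  dis : ∀ N ∈ L, ∀ N' ∈ L, N ≠ N' → N.E ∩ N'.E ⊆ N.J ∩ N'.J
  dis' : ∀ N ∈ L, ∀ N' ∈ L, N ≠ N' → N.E' ∩ N'.E' ⊆ N.J' ∩ N'.J'
  agr : ∀ N ∈ L, ∀ N' ∈ L, ∀ x ∈ N.J ∩ N'.J, N.h x = N'.h x
  inj : ∀ N ∈ L, ∀ N' ∈ L, ∀ x ∈ N.J, ∀ y ∈ N'.J, N.h x = N'.h y → x = y
  bdy : ∀ N ∈ L, N.E ∩ M.J ⊆ N.J
  bdy' : ∀ N ∈ L, N.E' ∩ M.J' ⊆ N.J'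
  agb : ∀ N ∈ L, ∀ x ∈ N.J ∩ M.J, N.h x = M.h x
  inb : ∀ N ∈ L, ∀ x ∈ N.J, ∀ y ∈ M.J, N.h x = M.h y → x = y

end mp

/-- the cells of the model, the plane -/
def MCell (E J : Set ℂ) : Prop :=
  ∃ h : ℂ ≃ₜ ℂ, h '' Metric.closedBall 0 1 = E ∧ h '' Metric.sphere 0 1 = J

end Pool.Agent.Helper13.TW
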