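import Pool.Agent.Helper13.TW.Defs

/-!
# Project TW, part A: arcs and simple closed curves (statements, general topology only)

Every statement is a `Prop`; a module proves it as a theorem whose hypotheses are the statements named in its docstring after the word Uses.
-/

set_option autoImplicit false

namespace Pool.Agent.Helper13.TW

open Set Topology Pool.Agent.Helper13.TR

/-- ARB.  Basic properties of arcs.
PROOF.  `γ : Path p q` injective with range `D`; a homeomorphism of `[0,1]` onto `D` (compact to Hausdorff).  (1) `Path.symm`.  (2) `p = γ 0 ≠ γ 1 = q`; the sets are images of `[0,1]`, `(0,1]`, `[0,1)`, `(0,1)`.  (3) `r = γ t`, `0 < t < 1`; the images of `[0,t]` and `[t,1]`, reparametrized (`Path.truncate`, or `γ ∘ (affine map)`).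
(4) `Path.trans`.  (5) `t` = the first parameter with `γ t ∈ F` (compactness), `D₁` = image of `[0,t]`.  (6) `f = γ' ∘ γ⁻¹` on `D`.  (7) `f ∘ γ`. -/
def StARB : Prop :=
  (∀ (S : Type) [TopologicalSpace S] [T2Space S] (D : Set S) (p q : S), IsArc D p q →
    IsArc D q p ∧ IsCompact D ∧ p ∈ D ∧ q ∈ D ∧ p ≠ q ∧ IsPathConnected D ∧ IsPathConnected (D \ {p}) ∧ IsPathConnected (D \ {q}) ∧
      IsPathConnected (D \ {p, q}) ∧ p ∈ closure (D \ {p, q}) ∧ q ∈ closure (D \ {p, q}) ∧ JoinedIn D p q) ∧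
  (∀ (S : Type) [TopologicalSpace S] [T2Space S] (D : Set S) (p q r : S), IsArc D p q → r ∈ D → r ≠ p → r ≠ q →
    ∃ D₁ D₂ : Set S, IsArc D₁ p r ∧ IsArc D₂ r q ∧ D₁ ∪ D₂ = D ∧ D₁ ∩ D₂ = {r}) ∧
  (∀ (S : Type) [TopologicalSpace S] [T2Space S] (D₁ D₂ : Set S) (p q r : S), IsArc D₁ p r → IsArc D₂ r q → D₁ ∩ D₂ = {r} → IsArc (D₁ ∪ D₂) p q) ∧
  (∀ (S : Type) [TopologicalSpace S] [T2Space S] (D F : Set S) (p q : S), IsArc D p q → IsClosed F → p ∉ F → (D ∩ F).Nonempty →
    ∃ r ∈ F, ∃ D₁ ⊆ D, IsArc D₁ p r ∧ D₁ ∩ F = {r}) ∧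
  (∀ (S S' : Type) [TopologicalSpace S] [T2Space S] [TopologicalSpace S'] [T2Space S'] (D : Set S) (D' : Set S') (p q : S) (p' q' : S'), IsArc D p q → IsArc D' p' q' →
    ∃ f : S → S', ContinuousOn f D ∧ InjOn f D ∧ f '' D = D' ∧ f p = p' ∧ f q = q') ∧
  (∀ (S S' : Type) [TopologicalSpace S] [T2Space S] [TopologicalSpace S'] (D : Set S) (p q : S) (f : S → S'), IsArc D p q → ContinuousOn f D → InjOn f D →
    IsArc (f '' D) (f p) (f q))

/-- ARX.  A path contains an arc.
PROOF.  `γ : [0,1] → S` the path, `p = γ 0 ≠ γ 1 = q`.  Consider closed sets `A ⊆ [0,1]` containing `0` and `1` such that `γ s = γ t` for every component `(s,t)` of `[0,1] ∖ A` (that is: `s < t` in `A`, `(s,t) ∩ A = ∅`).  Zorn (downward chains; the intersection of a chain of such compact sets is again such a set: the components of the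
complement of the intersection are increasing unions, use continuity): a minimal one, `A`.  Claim: if `γ s = γ t` with `s < t` in `A` then `(s,t) ∩ A = ∅` (otherwise `A ∖ (s,t)` is smaller).  `A` has no isolated points except when both sides ... (if `s` is isolated in `A` from both sides, `s ≠ 0, 1`, then `γ` agrees at its
neighbours `s₁ < s < s₂` in `A`, contradiction to the claim).  So `A` with the pairs of end points of its gaps identified is an arc: there is a continuous monotone surjective map `m : [0,1] → [0,1]` (a Cantor function of `A`) which is constant exactly on the closures of the gaps of `A`; `γ' (m a) = γ a` for `a ∈ A` is well defined,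
continuous (closed map lemma) and injective.  Any other proof is fine, for example: a compact connected locally connected metrizable space is arcwise connected; `range γ` is such a space; with chains of small connected open sets.  Here `S` is Hausdorff (then `range γ` is metrizable). -/
def StARX : Prop := ∀ (S : Type) [TopologicalSpace S] [T2Space S] (U : Set S) (p q : S), JoinedIn U p q → p ≠ q → ∃ D ⊆ U, IsArc D p q

/-- SCL.  Simple closed curves.  Uses `StARB`.
PROOF.  (1) `J = A₁ ∪ A₂` split at `a, b`.  First move one point: if `p ∈ A₁`, `p ≠ a, b`: cut `A₁` at `p` into `[a,p]` and `[p,b]`; `J` is split at `p, b` into `[p,b]` and `[p,a] ∪ A₂` (ARB (4)).  If `p ∈ {a, b}` nothing to do (symmetry).  So `J` can be split at `p` and some other point, then move this one to `q` (for `q ≠ p`, in one of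
the arcs from `p`).  (2) `D_i ∖ {p,q}` is connected, contained in the union of the disjoint relatively open sets `Y₁ ∖ {p,q}`, `Y₂ ∖ {p,q}` of `J ∖ {p,q}`.  (3) by (1) split at `p` and another point `c`: arcs `A₁, A₂` from `p` to `c`; choose points `a ∈ A₁`, `b ∈ A₂` close to `p` such that the subarcs `[p,a]`, `[p,b]` are in `O`; `D₂ = [a,p] ∪ [p,b]`,
`D₁` = the rest.  (4) ARB (7).  (5) union of two compact, path connected sets with common points; `J ∖ {p}`: split at `p` and `c`: `(A₁ ∖ {p}) ∪ (A₂ ∖ {p})`.  (6) split at `r` and `z`: an arc from `z` to `r`. -/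
def StSCL : Prop := ∀ (S : Type) [TopologicalSpace S] [T2Space S] (J : Set S), IsSCC J →
  (∀ p ∈ J, ∀ q ∈ J, p ≠ q → ∃ D₁ D₂ : Set S, Spl J p q D₁ D₂) ∧
  (∀ (p q : S) (D₁ D₂ Y₁ Y₂ : Set S), Spl J p q D₁ D₂ → IsClosed Y₁ → IsClosed Y₂ → Y₁ ∪ Y₂ = J → Y₁ ∩ Y₂ = {p, q} → (Y₁ \ {p, q}).Nonempty → (Y₂ \ {p, q}).Nonempty →
    (Y₁ = D₁ ∧ Y₂ = D₂) ∨ (Y₁ = D₂ ∧ Y₂ = D₁)) ∧
  (∀ p ∈ J, ∀ O : Set S, IsOpen O → p ∈ O → ∃ (a b : S) (D₁ D₂ : Set S), Spl J a b D₁ D₂ ∧ D₂ ⊆ O ∧ p ∈ D₂ ∧ p ≠ a ∧ p ≠ b) ∧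
  (∀ (S' : Type) [TopologicalSpace S'] (f : S → S'), ContinuousOn f J → InjOn f J → IsSCC (f '' J)) ∧
  (IsCompact J ∧ IsPathConnected J ∧ ∀ p ∈ J, IsPathConnected (J \ {p}))

/-- UAR.  Close points of a simple closed curve bound a small subarc.  Uses `StARB`, `StSCL`.
PROOF.  Otherwise there are `p_n ≠ q_n` in `J` with `dist p_n q_n → 0` such that both arcs between them have diameter `≥ ε`; subsequence: `p_n, q_n → c ∈ J`.  By SCL (3) `J` is split at `a, b` into `D₁, D₂`, `D₂ ⊆` ball of radius `ε / 4` about `c`, `c ∈ D₂`, `c ≠ a, b`; `p_n, q_n ∈ D₂` for large `n` (`D₁` is closed and does not contain `c`);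
the subarc of `D₂` from `p_n` to `q_n` is one of the two arcs (cut `D₂` in three parts; its complement in `J` together with its end points is an arc) and has diameter `≤ ε / 2`. -/
def StUAR : Prop := ∀ (S : Type) [MetricSpace S] (J : Set S), IsSCC J → ∀ ε : ℝ, 0 < ε → ∃ δ : ℝ, 0 < δ ∧
  ∀ p ∈ J, ∀ q ∈ J, p ≠ q → dist p q < δ → ∃ D₁ D₂ : Set S, Spl J p q D₁ D₂ ∧ Metric.diam D₁ < ε

/-- INF.  Infinite concatenation of paths.
PROOF.  `γ_n : [0,1] → U_n` a path from `x_n` to `x_{n+1}`; `γ t = γ_n (n-th affine parameter)` for `t ∈ [1 - 2^(-n), 1 - 2^(-n-1)]`, `γ 1 = p`.  Continuity at `t < 1`: locally finite gluing; at `1`: the hypothesis on `U`. -/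
def StINF : Prop := ∀ (S : Type) [TopologicalSpace S] (p : S) (U : ℕ → Set S) (x : ℕ → S), (∀ n, JoinedIn (U n) (x n) (x (n + 1))) →
  (∀ O : Set S, IsOpen O → p ∈ O → ∃ n₀, ∀ n ≥ n₀, U n ⊆ O) → JoinedIn ((⋃ n, U n) ∪ {p}) (x 0) p

/-- LIN.  Open arcs are closed lines in suitable subspaces.  Uses `StARB`, `StSCL`.
PROOF.  `(0,1) ≃ₜ ℝ`.  (1) `γ : (0,1) → D ∖ {p,q} ⊆ V₁` is an embedding, closed in `V₁` because `D` is closed and `p, q ∉ V₁`.  (2) by SCL split `J` at `p` and another point `c`; `J ∖ {p}` is the image of an open interval: `(A₁ ∖ {p}) ∪ (A₂ ∖ {p})`; it is closed in `{p}ᶜ`, and a continuous injective map `g` from `(0,1)` onto it is an embedding: it extends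
to a continuous surjection `[0,1] → J` with `0, 1 ↦ p`.  (3) Tietze for the closed set `range ψ` of the normal space `Y` and the real function `ψ⁻¹` (`ContinuousMap.exists_extension` or similar).  (4) Tietze for `D` and `γ⁻¹ : D → [0,1] ⊆ ℝ`. -/
def StLIN : Prop :=
  (∀ (S : Type) [TopologicalSpace S] [T2Space S] (D V₁ : Set S) (p q : S), IsArc D p q → D \ {p, q} ⊆ V₁ → p ∉ V₁ → q ∉ V₁ →
    ∃ ψ : ℝ → ↥V₁, IsClosedEmbedding ψ ∧ range ψ = Subtype.val ⁻¹' D) ∧
  (∀ (S : Type) [TopologicalSpace S] [T2Space S] (J : Set S) (p : S), IsSCC J → p ∈ J →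
    ∃ ψ : ℝ → ↥({p}ᶜ : Set S), IsClosedEmbedding ψ ∧ range ψ = Subtype.val ⁻¹' J) ∧
  (∀ (Y : Type) [TopologicalSpace Y] [TopologicalSpace.MetrizableSpace Y] (ψ : ℝ → Y), IsClosedEmbedding ψ → ∃ h : C(Y, ℝ), ∀ t, h (ψ t) = t) ∧
  (∀ (Y : Type) [TopologicalSpace Y] [TopologicalSpace.MetrizableSpace Y] (D : Set Y) (p q : Y), IsArc D p q → ∃ h : C(Y, ℝ), InjOn h D)

end Pool.Agent.Helper13.TW
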