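import Pool.Agent.Helper13.TW.StA

/-!
# Project TW, part B: homology of 2-manifolds, winding numbers (statements)

`StMV`, `StCON`, `StMON`, `StSM`, `StSDA`, `StPSH`, `StPRI`, `StEXI`, `StJOI` are the statements of `Pool/Agent/Helper13/TR/StA.lean` (all proved; assembled in `Pool/Agent/Helper13/TR/Asm.lean`).
-/

set_option autoImplicit false

namespace Pool.Agent.Helper13.TW

open Set Topology Pool.Agent.Helper13.TR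

/-- DSC.  From `ℝ × A` to `A`.  Uses `StMV`, `StCON`, `StMON`, `StSDA`, `StPSH`, `StPRI`.
PROOF.  `W = ℝ × A`, `π : W → A`, `i z = (0, z)`.  (H) Half lines: for `B ⊆ A` closed and `A₁ = [0,∞) × B`: `PP A₁ k` for all `k`: let `κ ∈ Cyc A₁ k` have the carrier in `{s < M}` (CON (2), compactness); PRI for `(s, z) ↦ (s - t M, z)`: `κ = κ' - bd P κ - P bd κ`, `κ' ∈ cin {s < 0}`, `P bd κ ∈ cin A₁ᶜ` (points of `A₁ᶜ` have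
`s < 0` or `z ∉ B` and stay there); for `k = 0` without `P bd κ`.  Same for `A₂ = (-∞,0] × B`.
low: `c ∈ Cyc {a} 1` in `A`; `σ = i c ∈ Cyc (ℝ × {a}) 1`; by (H) `σ ∈ Nul A₁`, `σ ∈ Nul A₂` for `B = {a}` (`Cyc` is monotone), `A₁ ∩ A₂ = {(0,a)}`, `PP _ 2` (`HM.low`), MV (5): `σ ∈ Nul (ℝ × {a}) 1`, and `π σ = c ∈ Nul {a} 1`.
ori: `a ∈ A`.  `HM.ori (0,a)`: `N³`, `c³`.  `B` = a closed set with `a ∈ interior B =: N`, `{0} × B ⊆ N³` (`A` is regular).  MV (2) for `A₁, A₂`, `k = 2`, `τ = c³ ∈ Cyc ({0} × B) 3`: `τ'`, `σ ∈ Cyc (ℝ × B) 2`, `c³ - τ' ∈ Nul ({0} × B) 3`, `MVR A₁ A₂ 2 τ' σ`.  `c = π σ ∈ Cyc B 2 ⊆ Cyc N 2`.  `Gen2 y c` for `y ∈ N`; write `A_i^y` for `B = {y}`.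
(i) `κ ∈ Cyc {y} 2`: `i κ ∈ Nul A_i^y` by (H), MV (3): `τ'' ∈ Cyc {(0,y)} 3`, `MVR A₁^y A₂^y 2 τ'' (i κ)`; `τ'' - m c³ ∈ Nul {(0,y)} 3` (`Gen`), so `τ'' - m τ' ∈ Nul`; `MVR` is monotone (smaller `A_i`), MV (4), (1): `i κ - m σ ∈ Nul (ℝ × {y}) 2`; apply `π`.
(ii) `m c ∈ Nul {y} 2`.  PRI for `(s,z) ↦ ((1-t) s, z)`: `i π σ - σ = bd P σ + P bd σ`, `P bd σ ∈ cin (ℝ × B)ᶜ`; so `m σ ∈ Nul (ℝ × {y}) 2`, `m σ = ρ + bd b`.  `MVR A₁^y A₂^y 2 (m τ') (m σ)` with `b₁, b₂`: `bd (b_i - b) = (m σ - ρ_i) - (m σ - ρ)`, so `b_i - b ∈ Cyc A_i^y 3 ⊆ Nul A_i^y 3` (H), `⊆ Nul {(0,y)} 3`; `m τ' = (b₁ - b) - (b₂ - b) ∈ Nul`,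
`m c³ ∈ Nul {(0,y)} 3`, `m = 0`. -/
def StDSC : Prop := ∀ (A : Type) [TopologicalSpace A] [T3Space A], HM (ℝ × A) → HM2 A

/-- OPN2.  Open subsets.  Uses `StSM`, `StSDA`, `StPSH`, `StMON`, `StEXI`.
PROOF.  `i : U → S`.  `i` maps `Cyc {x}`, `Nul {x}` of `U` to those of `S` (add, nul, loc: a path in `O ⊆ U` is a path in `i '' O`, open in `S`; `bd (i e) ∈ cin (i '' O)ᶜ`).  ker: EXI.  low: `c ∈ Cyc {x} 1`, `i c ∈ Nul {x} 1`, EXI.  one: `e ∈ Cyc {x} 2` of `S` with `ω x e = 1`; SM with `O₁ = U`, `O₂ = {x}ᶜ`: `e = e₁ + e₂ + bd f`, `e₁ = i e'`; `e₂, bd f ∈ Nul {x} 2`, so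
`ω x e₁ = 1` (add, nul), and `e' ∈ Cyc {x} 2` in `U` (PSH (6)). -/
def StOPN2 : Prop := ∀ (S : Type) [TopologicalSpace S] [T2Space S] (ω : S → Ch S 2 → ℤ) (U : Set S), WS S ω → IsOpen U →
  WS ↥U fun x e => ω x (push ⟨Subtype.val, continuous_subtype_val⟩ 2 e)

/-- WSX.  Existence of orientations, local.  Uses `StSM`, `StSDA`, `StPSH`, `StMON`, `StEXI`, `StCON`.
PROOF.  `U ∋ x` open, `c` as in `HM2.ori` with `U ⊆ N`.  `ω y e` = the integer `m` with `i e - m c ∈ Nul {y} 2` in `X` (`i : U → X`; exists for `e ∈ Cyc {y} 2`, unique by `Gen2`; `0` otherwise).  add, nul clear; ker: EXI; low: `i c' ∈ Nul {y} 1`, EXI.  one: SM for `c`, `O₁ = U`, `O₂ = {y}ᶜ`, as in OPN2.  loc: `γ` a path in `O` from `x` to `y`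
(subsets of `U`); `{t | ω (γ t) e = m}` is open for every `m`: `i e - m c ∈ Nul {γ t} 2`, by CON (`f = id`) it is in `Nul O' 2` for an open `O' ∋ γ t` of `X`.  So `t ↦ ω (γ t) e` is locally constant on `[0,1]`. -/
def StWSX : Prop := ∀ (X : Type) [TopologicalSpace X] [T3Space X], HM2 X → ∀ x : X, ∃ U : Set X, IsOpen U ∧ x ∈ U ∧ ∃ ω : ↥U → Ch ↥U 2 → ℤ, WS ↥U ω

/-- RAY2.  Closed subsets of a half line: `H_1 = 0`.  Uses `StMV`, `StCON`, `StMON`, `StSDA`.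
PROOF.  Exactly as `StRAY` (`Pool/Agent/Helper13/TR/StB.lean`, proof in `Pool/Agent/Helper31/TR/M_RAY.lean`), one degree lower: `σ ∈ Cyc D 1`; single points have `PP {p} 1` (`WS.low`); for the point `p = D_s` use `g ∈ Cyc {p} 2` with `ω p g = 1` (`WS.one`): `bd g ∈ cin {p}ᶜ` has a compact carrier, so `bd g ∈ cin Nᶜ` for an open `N ∋ p`
which can be taken path connected (`LocallyPathConnectedSpace`), so `ω y g = 1` for `y ∈ N` (`WS.loc`), and `τ - m g ∈ Nul {y} 2` for `τ ∈ Cyc {y} 2`, `m = ω y τ` (`WS.add`, `WS.ker`; `ω y` is additive, so also `ω y (m • g) = m`). -/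
def StRAY2 : Prop := ∀ (S : Type) [TopologicalSpace S] [T2Space S] [LocallyPathConnectedSpace S] (ω : S → Ch S 2 → ℤ), WS S ω → ∀ (D : Set S) (h : C(S, ℝ)), IsClosed D → InjOn h D →
  (∀ a b : ℝ, IsCompact (D ∩ h ⁻¹' Icc a b)) → (∃ ε : ℝ, ∀ w ∈ D, ε ≤ h w) → PP D 1

/-- CYC2.  `H_1` relative to the complement of a line is cyclic.  Uses `StRAY2`, `StMV`, `StMON`, `StLIN`, `StSDA`.
PROOF.  `l = range ψ`, `h` with `h (ψ t) = t` (LIN (3)); `l⁺ = l ∩ {h ≥ 0}`, `l⁻ = l ∩ {h ≤ 0}`, `l⁺ ∩ l⁻ = {p₀}`, `p₀ = ψ 0`.  `PP l^± 1` by RAY2 (`± h`).  `g ∈ Cyc {p₀} 2`, `ω p₀ g = 1`.  MV (2), `k = 1`: `g - g' ∈ Nul {p₀} 2`, `MVR l⁺ l⁻ 1 g' ε`, `ε ∈ Cyc l 1`.  For `e ∈ Cyc l 1`: `e ∈ Nul l^±`, MV (3): `κ ∈ Cyc {p₀} 2`, `MVR l⁺ l⁻ 1 κ e`;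
`m = ω p₀ κ`: `κ - m g ∈ Nul {p₀} 2` (`WS.ker`), `κ - m g' ∈ Nul`, MV (4), (1): `e - m ε ∈ Nul l 1`. -/
def StCYC2 : Prop := ∀ (S : Type) [TopologicalSpace S] [TopologicalSpace.MetrizableSpace S] [LocallyPathConnectedSpace S] (ω : S → Ch S 2 → ℤ), WS S ω → ∀ ψ : ℝ → S, IsClosedEmbedding ψ →
  ∃ ε ∈ Cyc (range ψ) 1, ∀ e ∈ Cyc (range ψ) 1, ∃ m : ℤ, e - m • ε ∈ Nul (range ψ) 1

/-- LCO.  The two sides of a line.  Uses `StCYC2`, `StJOI`, `StMON`, `StSDA`.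
PROOF.  `l = range ψ`, `ε` from CYC2.  `κ₀` a path chain from `a` to `b` (JOI (1), `S = univ`); `κ₀ - m₀ ε ∈ Nul l 1`.  If `κ ∈ Nul l 1`, `κ = ρ + bd β`, `ρ ∈ cin lᶜ 1`, then `ev T (bd κ) = ev T (bd ρ) = 0` (JOI (2)).  So `-1 = ev T (bd κ₀) = m₀ ev T (bd ε)`, `ev T (bd ε) ≠ 0`.  `κ` a path chain from `x` to `y`, `κ - m ε ∈ Nul l 1`,
`0 = ev T (bd κ) = m ev T (bd ε)`, `m = 0`, `κ = ρ + bd β ∈ Nul l 1`, `bd ρ = [y] - [x]`; with `T' = {z | JoinedIn lᶜ x z}`: `ev T' (bd ρ) = 0` (JOI (2)), so `y ∈ T'`. -/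
def StLCO : Prop := ∀ (S : Type) [TopologicalSpace S] [TopologicalSpace.MetrizableSpace S] [LocallyPathConnectedSpace S] (ω : S → Ch S 2 → ℤ), WS S ω → ∀ ψ : ℝ → S, IsClosedEmbedding ψ →
  ∀ T : Set S, (∀ a b : S, JoinedIn (range ψ)ᶜ a b → (a ∈ T ↔ b ∈ T)) → (∃ a b : S, a ∉ range ψ ∧ b ∉ range ψ ∧ a ∈ T ∧ b ∉ T ∧ Joined a b) →
    ∀ x y : S, x ∉ range ψ → y ∉ range ψ → Joined x y → (x ∈ T ↔ y ∈ T) → JoinedIn (range ψ)ᶜ x y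

/-- ARN.  Points and arcs do not separate; a simple closed curve has at most two sides.  Uses `StRAY2`, `StJOI`, `StMON`, `StSDA`, `StARB`, `StSCL`, `StLIN`, `StOPN2`, `StLCO`.
PROOF.  (1) `D` = arc or point, compact.  `PP D 1`: `WS.low` for a point, RAY2 with `h` from LIN (4) for an arc (everything is compact; `h` is bounded below on `D`).  `D ≠ S` as `S` is not compact.  `x, y ∉ D`: `κ` a path chain from `x` to `y` (JOI (1)), `κ ∈ Cyc D 1`, `κ = ρ + bd β`, `ρ ∈ cin Dᶜ 1`, `bd ρ = [y] - [x]`; `T = {z | JoinedIn Dᶜ x z}`,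
JOI (2): `y ∈ T`.  (2) `p ∈ J`; `S₁ = ↥({p}ᶜ)` is path connected (1), `WS` by OPN2, `ψ` from LIN (2), `l = range ψ`.  If `a, b` are not joined in `Jᶜ`: `T` = the points of `S₁` which are joined to `a` in `Jᶜ`, it is saturated, `a ∈ T`, `b ∉ T`.  `c ∈ T`: fine; `c ∉ T`: LCO for `b, c`.  (Paths in `lᶜ ⊆ S₁` correspond to paths in `Jᶜ ⊆ S`.) -/
def StARN : Prop := ∀ (S : Type) [TopologicalSpace S] [TopologicalSpace.MetrizableSpace S] [LocallyPathConnectedSpace S] [PathConnectedSpace S] (ω : S → Ch S 2 → ℤ), WS S ω → ¬ CompactSpace S →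
  (∀ D : Set S, ((∃ p q, IsArc D p q) ∨ ∃ p, D = {p}) → IsPathConnected Dᶜ) ∧
  ∀ J : Set S, IsSCC J → ∀ a b c : S, a ∉ J → b ∉ J → c ∉ J → JoinedIn Jᶜ a b ∨ JoinedIn Jᶜ b c ∨ JoinedIn Jᶜ a c

/-- WIN.  Winding numbers.  Uses `StMON`, `StCON`, `StSDA`.
PROOF.  (1) Let `e₀` be the chosen chain, `u = e - e₀`, `bd u = 0`.  `WS.loc` with `O = univ`: `ω · u` is constant (`S` is path connected).  `u ∈ cin Q 2`, `Q` compact (CON (2)), `Q ≠ S`, `x₀ ∉ Q`: `u ∈ cin {x₀}ᶜ ⊆ Nul`, `ω x₀ u = 0`.  So `ω x u = 0`, and `e, e₀, u ∈ Cyc {x} 2`, `WS.add`.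
(2)-(5) by (1) for suitable chains: `z = bd e`, `z' = bd e'`; (4) `e ∈ cin Q 2`: for `x ∉ Q`: `bd e ∈ cin Q 1 ⊆ cin {x}ᶜ`, `ω x e = 0`. -/
def StWIN : Prop := ∀ (S : Type) [TopologicalSpace S] [T2Space S] [PathConnectedSpace S] (ω : S → Ch S 2 → ℤ), WS S ω → ¬ CompactSpace S →
  (∀ (e : Ch S 2) (x : S), bd 1 e ∈ cin {x}ᶜ 1 → W ω (bd 1 e) x = ω x e) ∧
  (∀ (z z' : Ch S 1) (x : S), (∃ e : Ch S 2, bd 1 e = z) → (∃ e : Ch S 2, bd 1 e = z') → z ∈ cin {x}ᶜ 1 → z' ∈ cin {x}ᶜ 1 →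
    W ω (z + z') x = W ω z x + W ω z' x ∧ W ω (-z) x = -W ω z x ∧ W ω (z - z') x = W ω z x - W ω z' x) ∧
  (∀ (z : Ch S 1) (O : Set S), (∃ e : Ch S 2, bd 1 e = z) → IsOpen O → z ∈ cin Oᶜ 1 → ∀ x y : S, JoinedIn O x y → W ω z x = W ω z y) ∧
  (∀ z : Ch S 1, (∃ e : Ch S 2, bd 1 e = z) → ∃ Q : Set S, IsCompact Q ∧ ∀ x ∉ Q, W ω z x = 0) ∧
  (∀ (e : Ch S 2) (Q : Set S), e ∈ cin Q 2 → ∀ x ∉ Q, W ω (bd 1 e) x = 0)

/-- AC1.  Arcs are acyclic.  Uses `StPRI`, `StPSH`, `StSDA`, `StMON`, `StJOI`.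
PROOF.  (1) `γ : [0,1] → D` a homeomorphism; `z = i z'` for a cycle `z'` of the space `↥D` (PSH (5)).  `H (t, γ s) = γ ((1 - t) s)` is a homotopy from the identity of `↥D` to the constant map `p`.  PRI: `bd (P z') = g z' - z'`, `g z' = m κ₁`, `κ₁` = constant 1-simplex `= bd κ₂`, `κ₂` the constant 2-simplex.  (2) JOI (1) and the choice in `dch`. -/
def StAC1 : Prop := ∀ (S : Type) [TopologicalSpace S] [T2Space S] (D : Set S) (p q : S), IsArc D p q →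
  (∀ z ∈ cin D 1, bd 0 z = 0 → ∃ f ∈ cin D 2, bd 1 f = z) ∧
  dch D p q ∈ cin D 1 ∧ bd 0 (dch D p q) = Finsupp.single (pt q) 1 - Finsupp.single (pt p) 1

/-- WD.  Winding numbers of simple closed curves.  Uses `StWIN`, `StAC1`, `StARB`, `StSCL`, `StMON`, `StSDA`.
PROOF.  All cycles are in `V`, so they bound.  (1) `(d₁ - d₂) - (dch D₁ - dch D₂) = bd (f₁ - f₂)`, `f_i ∈ cin D_i 2` by AC1, `W = 0` by WIN (5); WIN (2).  (2) `(dch D₁ - dch D₂) + (dch D₂ - dch D₃) = dch D₁ - dch D₃`, WIN (2).  (3) Move one point: if `q' ∈ D₁ ∖ {p,q}`, `D₁ = A ∪ B`, `A` from `p` to `q'`, `B` from `q'` to `q`: `J` is split at `p, q'` into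
`A`, `D₂ ∪ B`; `d_A + d_B - d_{D₁}` bounds in `D₁` and `d_{D₂} - d_B` is a chain in `D₂ ∪ B` from `p` to `q'`, so by (1) `wd A (D₂ ∪ B) p q' x = wd D₁ D₂ p q x`.  Same for `q' ∈ D₂` (with `A ⊆ D₂`: `wd (D₁ ∪ B) A p q' x = wd D₁ D₂ p q x`), and for moving `p`.  Exchanging `p, q` or `D₁, D₂` changes the sign ((1) for `- d_i`).  For given `p, q` the
pair `{D₁, D₂}` is unique (SCL (2)).  Any `(p', q')` is reached from `(p, q)` by moving the points one after the other (if `q' = p`: first exchange).  (4) `z = dch D₁ - dch D₂ ∈ cin O₁ 1` is `bd e` with `e ∈ cin O 2`, WIN (5). -/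
def StWD : Prop := ∀ (S : Type) [TopologicalSpace S] [T2Space S] [PathConnectedSpace S] (ω : S → Ch S 2 → ℤ) (V : Set S), GR S ω V →
  (∀ (D₁ D₂ : Set S) (p q : S), IsArc D₁ p q → IsArc D₂ p q → D₁ ⊆ V → D₂ ⊆ V → ∀ d₁ ∈ cin D₁ 1, ∀ d₂ ∈ cin D₂ 1,
    bd 0 d₁ = Finsupp.single (pt q) 1 - Finsupp.single (pt p) 1 → bd 0 d₂ = Finsupp.single (pt q) 1 - Finsupp.single (pt p) 1 →
    ∀ x, x ∉ D₁ → x ∉ D₂ → W ω (d₁ - d₂) x = wd ω D₁ D₂ p q x) ∧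
  (∀ (D₁ D₂ D₃ : Set S) (p q : S), IsArc D₁ p q → IsArc D₂ p q → IsArc D₃ p q → D₁ ⊆ V → D₂ ⊆ V → D₃ ⊆ V → ∀ x, x ∉ D₁ → x ∉ D₂ → x ∉ D₃ →
    wd ω D₁ D₂ p q x + wd ω D₂ D₃ p q x = wd ω D₁ D₃ p q x) ∧
  (∀ (J : Set S) (p q p' q' : S) (D₁ D₂ D₁' D₂' : Set S), Spl J p q D₁ D₂ → Spl J p' q' D₁' D₂' → J ⊆ V →
    (∀ x, x ∉ J → wd ω D₁' D₂' p' q' x = wd ω D₁ D₂ p q x) ∨ ∀ x, x ∉ J → wd ω D₁' D₂' p' q' x = -wd ω D₁ D₂ p q x) ∧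
  ∀ J O₁ O : Set S, IsSCC J → J ⊆ V → J ⊆ O₁ → (∀ z ∈ cin O₁ 1, bd 0 z = 0 → ∃ e ∈ cin O 2, bd 1 e = z) → Ins ω J ⊆ O

end Pool.Agent.Helper13.TW
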