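import Pool.Agent.Helper13.TW.StB

/-!
# Project TW, part C: cells (statements)

Situation `GR S ω V`; `cl ω J = J ∪ Ins ω J`, `Out ω J = (cl ω J)ᶜ`.  `Ess ω V J`: simple closed curve in `V` with nonempty interior; `Cel ω V J`: moreover `Ins ω J ⊆ V`; `Crs ω J p q P`: `P` is a crosscut.
-/

set_option autoImplicit false

namespace Pool.Agent.Helper13.TW

open Set Topology Pool.Agent.Helper13.TR

/-- TWO.  The two sides of a curve.  Uses `StARN`, `StWIN`, `StWD`, `StSCL`, `StAC1`, `StMON`.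
PROOF.  Fix a splitting `Spl J p q D₁ D₂`, `w x = wd ω D₁ D₂ p q x`.  By WD (3) for `x ∉ J`: `x ∈ Ins ω J` iff `w x ≠ 0`.  WIN (3) with `O = Jᶜ` (open, `J` compact): `w` is constant along paths in `Jᶜ`, so (4).  `Jᶜ` is open and `S` is locally path connected, so `Ins` and `Out` are open.  WIN (4): `Ins ω J ⊆ Q` compact; `cl ω J` is closed (its complement
`Out` is open) and contained in `J ∪ Q`: compact (3).  `Out ω J` is nonempty, as `S` is not compact.  Path connected: `x, y ∈ Ins`, `z ∈ Out`: by ARN (2) two of them are joined in `Jᶜ`, by (4) it is `x, y`, and all points of the path are joined to `x` in `Jᶜ`, so in `Ins` (4).  Same for `Out`.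
(5) for the given splitting by (4)-type constancy on the path connected set `Ins`; `m = w x ≠ 0`; `w = 0` on `Out` by WD (3). -/
def StTWO : Prop := ∀ (S : Type) [MetricSpace S] [LocallyPathConnectedSpace S] [PathConnectedSpace S] (ω : S → Ch S 2 → ℤ) (V : Set S), GR S ω V → ∀ J : Set S, Ess ω V J →
  (IsOpen (Ins ω J) ∧ IsPathConnected (Ins ω J)) ∧ (IsOpen (Out ω J) ∧ IsPathConnected (Out ω J)) ∧ IsCompact (cl ω J) ∧
  (∀ a b : S, JoinedIn Jᶜ a b → (a ∈ Ins ω J ↔ b ∈ Ins ω J)) ∧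
  (∀ (p q : S) (D₁ D₂ : Set S), Spl J p q D₁ D₂ → ∃ m : ℤ, m ≠ 0 ∧ (∀ x ∈ Ins ω J, wd ω D₁ D₂ p q x = m) ∧ ∀ x ∈ Out ω J, wd ω D₁ D₂ p q x = 0)

/-- CLS.  Every point of a curve is in the closure of both sides.  Uses `StTWO`, `StARN`, `StSCL`, `StARB`.
PROOF.  Let `p ∈ J`, `O ∋ p` open, `O ∩ Ins ω J = ∅`.  SCL (3): `Spl J a b D₁ D₂`, `D₂ ⊆ O`, `p ∈ D₂`, `p ≠ a, b`.  `D₁ᶜ` is path connected (ARN (1)).  `Ins ω J ⊆ D₁ᶜ` is open and relatively closed in `D₁ᶜ`: a point of its closure outside `Ins ω J` is in `J` (`Out` is open), in `D₁ᶜ` so in `D₂ ⊆ O`, but `O` is open and disjoint from `Ins ω J`.  It is nonempty, and its complement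
in `D₁ᶜ` contains `Out ω J ≠ ∅`.  Contradiction.  The same for `Out ω J` (the complement contains `Ins ω J ≠ ∅`).  So `closure (Ins ω J) = cl ω J`. -/
def StCLS : Prop := ∀ (S : Type) [MetricSpace S] [LocallyPathConnectedSpace S] [PathConnectedSpace S] (ω : S → Ch S 2 → ℤ) (V : Set S), GR S ω V → ∀ J : Set S, Ess ω V J →
  J ⊆ closure (Ins ω J) ∧ J ⊆ closure (Out ω J) ∧ closure (Ins ω J) = cl ω J

/-- THE.  The theta curve lemma.  Uses `StTWO`, `StCLS`, `StWIN`, `StWD`, `StARB`, `StSCL`, `StAC1`.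
PROOF.  `P ⊆ V` (`P ∖ {p,q} ⊆ Ins ω J ⊆ V`).  `J₁ = D₁ ∪ P`, `J₂ = D₂ ∪ P`: `Spl J₁ p q D₁ P`, `Spl J₂ p q D₂ P`.  `w = wd D₁ D₂`, `w₁ = wd D₁ P`, `w₂ = wd P D₂` (all `p q`); `w = w₁ + w₂` off `J ∪ P` (WD (2)).  By WD (3) (with one splitting and itself exchanged) `x ∉ J_i` is in `Ins J_i` iff `w_i x ≠ 0`.  `w = m ≠ 0` on `Ins J`, `0` on `Out J` (TWO (5)).
(a) `w₁ = 0` on `Out J`: `Out J` is path connected and disjoint from `J₁`, so `w₁` is constant on it (WIN (3)), and `w₁ = 0` outside a compact set `Q₁` (WIN (4)); `Out J ⊄ Q₁` as `S` is not compact (`S = cl J ∪ Out J`).  In the same way `w₂ = 0` on `Out J`.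
(b) Let `r ∈ D₂ ∖ {p,q}`: `r ∉ J₁`, `w₁` is constant on a path connected neighbourhood of `r`, which meets `Out J` (CLS): `w₁ = 0` near `r`; so `w₂ = m` at the points of `Ins J ∖ P` near `r` (they exist by CLS).  So `J₂` is `Ess`, and `w₂ = m` on `Ins J₂` (TWO (5) for `J₂`, up to the sign of the splitting; the value at the points near `r` fixes it).  The same
with `1, 2` exchanged: `w₁ = m` on `Ins J₁`, `w₂ = 0` near the points of `D₁ ∖ {p,q}`.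
(c) `Ins J₁ ⊆ Ins J ∖ P`: `x ∈ Ins J₁`: `w₁ x ≠ 0`, `x ∉ Out J` by (a), `x ∉ D₁ ∪ P`, `x ∉ D₂ ∖ {p,q}` by (b).  So `J_i` is `Cel`.  (d) `x ∈ Ins J ∖ P`: `w₁ x, w₂ x ∈ {0, m}` with sum `m`: exactly one is not `0`. -/
def StTHE : Prop := ∀ (S : Type) [MetricSpace S] [LocallyPathConnectedSpace S] [PathConnectedSpace S] (ω : S → Ch S 2 → ℤ) (V : Set S), GR S ω V → ∀ J : Set S, Cel ω V J →
  ∀ (p q : S) (D₁ D₂ P : Set S), Spl J p q D₁ D₂ → Crs ω J p q P →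
    Cel ω V (D₁ ∪ P) ∧ Cel ω V (D₂ ∪ P) ∧ Ins ω (D₁ ∪ P) ∩ Ins ω (D₂ ∪ P) = ∅ ∧ Ins ω (D₁ ∪ P) ∪ Ins ω (D₂ ∪ P) = Ins ω J \ P ∧
    cl ω (D₁ ∪ P) ∪ cl ω (D₂ ∪ P) = cl ω J ∧ cl ω (D₁ ∪ P) ∩ cl ω (D₂ ∪ P) = P ∧ cl ω (D₁ ∪ P) ∩ J = D₁ ∧ cl ω (D₂ ∪ P) ∩ J = D₂

/-- ULC.  The interior is uniformly locally connected.  Uses `StTWO`, `StCLS`, `StSCL`, `StLIN`, `StOPN2`, `StLCO`.
PROOF.  SCL (3): `Spl J a b D₁ D₂`, `D₂ ⊆ O`, `p ∈ D₂`, `p ≠ a, b`.  `V₁ = O ∖ D₁` open, `D₂ ∖ {a,b} ⊆ V₁`, `a, b ∉ V₁`, `J ∩ V₁ = D₂ ∩ V₁`.  `O'` = path component of `p` in `V₁` (open).  `S₁ = ↥V₁`: `WS` (OPN2), `ψ` (LIN (1)) with `range ψ` = the points of `V₁` in `J`.  `T` = the points of `S₁` in `Ins ω J`, saturated by TWO (4); `O'` contains points of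
`Ins ω J` and `Out ω J` (CLS), joined in `V₁`.  For `x, y ∈ O' ∩ Ins ω J`: joined in `V₁`, so by LCO joined in `V₁ ∖ J ⊆ O`, and all points of this path are in `Ins ω J` (TWO (4)). -/
def StULC : Prop := ∀ (S : Type) [MetricSpace S] [LocallyPathConnectedSpace S] [PathConnectedSpace S] (ω : S → Ch S 2 → ℤ) (V : Set S), GR S ω V → ∀ J : Set S, Ess ω V J →
  ∀ p ∈ J, ∀ O : Set S, IsOpen O → p ∈ O → ∃ O' : Set S, IsOpen O' ∧ p ∈ O' ∧ O' ⊆ O ∧ ∀ x ∈ O' ∩ Ins ω J, ∀ y ∈ O' ∩ Ins ω J, JoinedIn (O ∩ Ins ω J) x y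

/-- ACC.  Crosscuts exist.  Uses `StULC`, `StINF`, `StARX`, `StTWO`, `StCLS`.
PROOF.  `O_n` = ball of radius `1/(n+1)` about `p`, `O'_n ⊆ O_n` from ULC, decreasing (take for `O'_(n+1)` the set of ULC for `O_(n+1) ∩ O'_n`), `x_n ∈ O'_n ∩ Ins ω J` (CLS); `x_n, x_(n+1)` are joined in `O_n ∩ Ins ω J`.  INF: `x_0` and `p` are joined in `Ins ω J ∪ {p}`.  The same for `q`; `x_0, y_0` are joined in `Ins ω J` (TWO).  So `p, q` are joined in
`Ins ω J ∪ {p, q}`; ARX. -/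
def StACC : Prop := ∀ (S : Type) [MetricSpace S] [LocallyPathConnectedSpace S] [PathConnectedSpace S] (ω : S → Ch S 2 → ℤ) (V : Set S), GR S ω V → ∀ J : Set S, Ess ω V J →
  ∀ p ∈ J, ∀ q ∈ J, p ≠ q → ∃ P : Set S, Crs ω J p q P

/-- SMC.  Small crosscuts cut off small pieces.  Uses `StTWO`, `StUAR`, `StWD`, `StSCL`, `StARB`, `StTHE`.
PROOF.  `cl ω J` is compact (TWO).  For `x ∈ cl ω J` take `V_x ∋ x` open, cycles in `V_x` bound in the ball of radius `η / 4` about `x` (`LH1`).  Lebesgue number `lam` of this cover.  UAR for `lam / 2`: `δ`; take `δ' = min δ (lam / 2)`.  `P` crosscut from `p` to `q`, `diam P < δ'`; so `dist p q < δ'`, and `J` has a splitting `Spl J p q A B` with `diam A < lam / 2`; by SCL (2)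
`A = D₁` or `A = D₂`, say `D₁`.  `D₁ ∪ P ⊆ cl ω J` has diameter `< lam`, so is contained in some `V_x`.  WD (4): `Ins ω (D₁ ∪ P)` is contained in the ball of radius `η / 4` about `x`, and so is `D₁ ∪ P` (`V_x ⊆` ball). -/
def StSMC : Prop := ∀ (S : Type) [MetricSpace S] [LocallyPathConnectedSpace S] [PathConnectedSpace S] (ω : S → Ch S 2 → ℤ) (V : Set S), GR S ω V → LH1 S → ∀ J : Set S, Cel ω V J →
  ∀ η : ℝ, 0 < η → ∃ δ : ℝ, 0 < δ ∧ ∀ (p q : S) (D₁ D₂ P : Set S), Spl J p q D₁ D₂ → Crs ω J p q P → Metric.diam P < δ →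
    Metric.diam (cl ω (D₁ ∪ P)) < η ∨ Metric.diam (cl ω (D₂ ∪ P)) < η

end Pool.Agent.Helper13.TW
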