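import Pool.Agent.Helper13.TW.StC

/-!
# Project TW, part D: small cells, subdivision into small cells (statements)
-/

set_option autoImplicit false

namespace Pool.Agent.Helper13.TW

open Set Topology Pool.Agent.Helper13.TR

/-- SDM.  Subdivision of 1-cycles into small simplices.  Uses `StSDA`, `StMSH`, `StLNA`, `StABD`.
PROOF.  `z' = (Sd 1)^[m] z`.  `z - Sd z = bd (Th z)` for a cycle (SDA), so `z - z' = bd f` with `f = ∑ Th (Sd^j z) ∈ cin Q 2`.  Mesh: for a singular simplex `σ : Dl 1 → S`, uniformly continuous: `δ` for `ρ/2`; `Sd^m σ = act σ (asd^m [iot 1])` and by MSH all simplices `w` of `asd^m [iot 1]` have `dist (w 0) (w 1) ≤ (1/2)^m < δ`, so `range (σ ∘ lin w)` has diameter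
`≤ ρ/2 < ρ` (all points of `range (lin w)` are within `dist (w 0) (w 1)` of `w 0`).  (As in `Pool/Agent/Helper97/TR/M_SDE.lean`.) -/
def StSDM : Prop := ∀ (S : Type) [MetricSpace S] (Q : Set S) (ρ : ℝ), 0 < ρ → ∀ z ∈ cin Q 1, bd 0 z = 0 →
  ∃ z' ∈ cin Q 1, ∃ f ∈ cin Q 2, z - z' = bd 1 f ∧ ∀ σ ∈ z'.support, Metric.diam (range σ) < ρ

/-- CHN.  From 1-cycles to closed chains of small arcs.  Uses `StSDM`, `StARX`, `StWIN`, `StAC1`, `StARB`, `StMON`, `StSDA`.
PROOF.  SDM: `z'` with simplices of diameter `< ρ`; `W z' a = W z a ≠ 0` (`W (bd f) a = 0` by WIN (5), WIN (2); everything bounds, because it is in `Q ⊆ V`).  For `σ ∈ supp z'`, `p_σ = σ (vertex 0)`, `q_σ = σ (vertex 1)`, `bd σ = [q_σ] - [p_σ]`.  If `p_σ = q_σ`, `σ` is a cycle in `range σ`, `W σ a = 0` by `Tame`; put `d_σ = 0`.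
If `p_σ ≠ q_σ`: ARX: an arc `α_σ ⊆ range σ` from `p_σ` to `q_σ`, `d_σ = dch α_σ p_σ q_σ`; `σ - d_σ` is a cycle in `range σ`, `W (σ - d_σ) a = 0` by `Tame`.  So `z₂ = ∑ n_σ d_σ` is a cycle with `W z₂ a ≠ 0`.  If `n_σ < 0` replace `- dch α p q` by `dch α q p` (they differ by a cycle in `α`, `Tame`).  So there is a finite list `T` of triples `(α, p, q)`, `IsArc α p q`,
`α ⊆ Q`, `diam α < ρ`, such that `z₃ = ∑ dch α p q` is a cycle, `W z₃ a ≠ 0`.  Take such a list of minimal length.  As `∑ ([q] - [p]) = 0`, for every triple `t` there is a triple `t'` with `p (t') = q (t)`; choose a function `next` on the indices; it has a periodic orbit `i, next i, ..., next^k i = i` (`k ≥ 1` minimal): a closed chain.  If its winding number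
is `0`, the rest of the list is a cycle with the winding number `W z₃ a`, a shorter list: contradiction. -/
def StCHN : Prop := ∀ (S : Type) [MetricSpace S] [LocallyPathConnectedSpace S] [PathConnectedSpace S] (ω : S → Ch S 2 → ℤ) (V : Set S), GR S ω V → ∀ (Q : Set S) (a : S) (ρ : ℝ),
  IsCompact Q → Q ⊆ V → a ∉ Q → 0 < ρ → Tame ω Q a ρ → ∀ z ∈ cin Q 1, bd 0 z = 0 → W ω z a ≠ 0 →
    ∃ (n : ℕ) (x : ℕ → S) (α : ℕ → Set S), 1 ≤ n ∧ Chn Q ρ n x α ∧ wch ω n x α a ≠ 0

/-- SIM.  From a closed chain of small arcs to a simple closed curve.  Uses `StARB`, `StWIN`, `StAC1`, `StWD`, `StMON`, `StSDA`.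
PROOF.  Take `n ≥ 1` minimal such that there is a closed chain (in `Q`, arcs of diameter `< ρ`) with `wch ≠ 0`.  Indices modulo `n`; `c_i = dch (α i)`.  All cycles in `Q` bound.
(i) `n ≥ 4`: otherwise `C = ⋃ α i` has diameter `< 4 ρ` (consecutive arcs have a common point) and `wch = 0` by `Tame`.
(ii) `α i ∩ α j = ∅` if `i, j` are not equal and not neighbours modulo `n`.  Otherwise let `v ∈ α i ∩ α j`, `i < j`; cut `α i` at `v` into `α i'` (from `x i` to `v`) and `α i''` (ARB (2); if `v` is an end point one of them is missing), `α j` in the same way.  The closed chains `α i'', α (i+1), ..., α (j-1), α j'` and `α j'', α (j+1), ..., α (i-1), α i'` (indices modulo `n`)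
have at most `j - i + 1 ≤ n - 1` and `n - (j - i) + 1 ≤ n - 1` arcs, and the sum of their winding numbers is that of the given one (`c_i - c_i' - c_i''` is a cycle in `α i`: `Tame`), so one of them is not `0`: contradiction to the minimality.
(iii) Pair adjustment: for arcs `A` from `x` to `y`, `B` from `y` to `z` with `x ∉ B`, `z ∉ A` let `v` be the first point of `A` in `B` (ARB (4)), `A'` = the subarc of `A` from `x` to `v`, `B'` = the subarc of `B` from `v` to `z` (`v ≠ z`): `A' ∩ B = {v}`, and `c_A + c_B - c_A' - c_B'` is a cycle in `A ∪ B`, of diameter `< 4 ρ`: the winding number does not change (`Tame`).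
Apply it to the pairs `(α 0, α 1)`, `(α 1, α 2)`, ..., `(α (n-1), α 0)` one after the other (the new arcs are subsets of the old ones, so (ii) remains true, and the hypotheses `x ∉ B`, `z ∉ A` follow from (ii) as `n ≥ 4`: the start point of `A` is on the previous arc or on an arc that is not a neighbour of `B`; in the last step `α 0` is cut at its beginning and ends still at its
end point).  Result: arcs `β 0, ..., β (n-1)`, `β i` from `v i` to `v (i+1)`, `v n = v 0`, neighbours meet exactly in the common end point, the others are disjoint.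
(iv) `β 1 ∪ ... ∪ β (n-1)` is an arc from `v 1` to `v 0` (ARB (3), induction), it meets `β 0` exactly in `v 0, v 1`.  `J = ⋃ β i`, and by WD (1) `wd (β 0) (β 1 ∪ ... ∪ β (n-1)) (v 0) (v 1) a = W (∑ dch β i) a ≠ 0` (`- ∑_(i ≥ 1) dch (β i)` is a chain from `v 0` to `v 1` in the second arc). -/
def StSIM : Prop := ∀ (S : Type) [MetricSpace S] [LocallyPathConnectedSpace S] [PathConnectedSpace S] (ω : S → Ch S 2 → ℤ) (V : Set S), GR S ω V → ∀ (Q : Set S) (a : S) (ρ : ℝ),
  IsCompact Q → Q ⊆ V → a ∉ Q → 0 < ρ → Tame ω Q a ρ → ∀ (n : ℕ) (x : ℕ → S) (α : ℕ → Set S), 1 ≤ n → Chn Q ρ n x α → wch ω n x α a ≠ 0 →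
    ∃ J ⊆ Q, IsSCC J ∧ a ∈ Ins ω J

/-- SCE.  Small cells exist.  Uses `StCHN`, `StSIM`, `StWIN`, `StWD`, `StSM`, `StSDA`, `StCON`, `StMON`.
PROOF.  `O₀ = O ∩ V`.  `LH1`: `O₁ ∋ a` open, `O₁ ⊆ O₀`, cycles in `O₁` bound in `O₀`.  `WS.one`: `e ∈ Cyc {a} 2`, `ω a e = 1`.  SM for `O₁, {a}ᶜ`: `e = e₁ + e₂ + bd f`, `e₁ ∈ cin O₁ 2`, `e₂ ∈ cin {a}ᶜ 2`; `ω a e₁ = 1` (add, nul).  `z = bd e₁ ∈ cin O₁ 1 ∩ cin {a}ᶜ 1`, `W z a = 1` (WIN (1)).  CON (2): `z ∈ cin Q 1`, `Q` compact, `Q ⊆ O₁ ∖ {a}`.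
`LH1` at every `y ∈ Q` for the open set `{a}ᶜ`: `V_y`; Lebesgue number `4 ρ` (of the cover of the compact set `Q`): a set `C ⊆ Q` of diameter `< 4 ρ` is in some `V_y` (or empty), cycles in it are `bd e'` with `e' ∈ cin {a}ᶜ 2`, so `W = 0` at `a` (WIN (5)): `Tame`.  CHN, SIM: `J ⊆ Q`, `a ∈ Ins ω J`.  WD (4): `Ins ω J ⊆ O₀`. -/
def StSCE : Prop := ∀ (S : Type) [MetricSpace S] [LocallyPathConnectedSpace S] [PathConnectedSpace S] (ω : S → Ch S 2 → ℤ) (V : Set S), GR S ω V → LH1 S →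
  ∀ a ∈ V, ∀ O : Set S, IsOpen O → a ∈ O → ∃ J : Set S, Cel ω V J ∧ a ∈ Ins ω J ∧ cl ω J ⊆ O

/-- CMP.  The components of `K ∩ Ins J` are crosscuts.  Uses `StARB`, `StSCL`, `StTWO`, `StCLS`.
PROOF.  Let `z ∈ K ∩ Ins ω J`.  There is `r ∈ K ∖ Ins ω J`; SCL (1): `Spl K z r A₁ A₂`.  ARB (4) for the closed set `F = (Ins ω J)ᶜ`: the first points `p ∈ A₁`, `q ∈ A₂` in `F`; they are in `J` (limits of points of `Ins ω J`, not in it: `closure (Ins ω J) = cl ω J`).  `p ≠ q`: otherwise `p = q = r` (as `A₁ ∩ A₂ = {z, r}`), and all other points of `K` are in `Ins ω J`,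
but there are two points of `K` outside.  `P` = the union of the subarcs `[z,p]`, `[z,q]`: arc from `p` to `q`, `P ∖ {p,q} ⊆ Ins ω J`, `P ∩ J = {p,q}`.  `K ∖ (P ∖ {p,q})` = the union of the remaining subarcs `[p,r]`, `[q,r]` (or points), closed.  So `P ∖ {p,q}` is connected, open in `K` and closed in `K ∩ Ins ω J` (`P` is closed): it is the component.
(2) The components are disjoint and open in `K`; those which meet the compact set `K ∩ α` cover it; finitely many.  (3) Let `C_n` be infinitely many different components of diameter `≥ δ`; closures `P_n`, arcs in `K`.  Choose points `u_n, w_n ∈ C_n` with `dist u_n w_n ≥ δ/2`; subsequence `u_n → u`, `w_n → w`, `u ≠ w`, in `K`.  SCL (3): disjoint subarcs `A ∋ u`, `B ∋ w` of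
`K`, small (and containing neighbourhoods of `u`, `w` in `K`), so `u_n ∈ A`, `w_n ∈ B` for `n ≥ n₀`; `K ∖ (A ∪ B)` has two components `G₁, G₂`; the connected set `C_n ⊆ K` meets `A` and `B`, so contains `G₁` or `G₂`; three different (disjoint) `C_n`: contradiction.  (Or: parametrize `K` by the circle, lengths of disjoint intervals, uniform continuity.) -/
def StCMP : Prop := ∀ (S : Type) [MetricSpace S] [LocallyPathConnectedSpace S] [PathConnectedSpace S] (ω : S → Ch S 2 → ℤ) (V : Set S), GR S ω V → ∀ J : Set S, Ess ω V J →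
  ∀ K : Set S, IsSCC K → (∃ r₁ r₂ : S, r₁ ≠ r₂ ∧ r₁ ∈ K \ Ins ω J ∧ r₂ ∈ K \ Ins ω J) →
    (∀ z ∈ K ∩ Ins ω J, ∃ (p q : S) (P : Set S), Crs ω J p q P ∧ z ∈ P ∧ P ⊆ K ∧ IsClosed (K \ (P \ {p, q})) ∧ connectedComponentIn (K ∩ Ins ω J) z = P \ {p, q}) ∧
    (∀ α : Set S, IsCompact α → α ⊆ Ins ω J → {C : Set S | ∃ z ∈ K ∩ α, C = connectedComponentIn (K ∩ Ins ω J) z}.Finite) ∧
    ∀ δ : ℝ, 0 < δ → {C : Set S | (∃ z ∈ K ∩ Ins ω J, C = connectedComponentIn (K ∩ Ins ω J) z) ∧ δ ≤ Metric.diam C}.Finite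

/-- JIN.  Points which are not separated by one component.  Uses `StCMP`, `StTWO`, `StCLS`, `StTHE`, `StLIN`, `StOPN2`, `StLCO`, `StSCL`, `StARB`.
PROOF.  Induction on the (finite, CMP (2)) number `N` of components of `K ∩ Ins ω J` which meet the image of the path `α` in `Ins ω J` from `x` to `y` (exists by TWO), for all `x, y, α`.  `N = 0`: `α` avoids `K`.  `N ≥ 1`: `t₀` = the first parameter with `α t₀ ∈ K`, `C` = the component of `α t₀`, `P = C ∪ {p,q}` (CMP (1)), `t₁` = the last parameter with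
`α t₁ ∈ C` (`P ∩ range α` is compact and `p, q ∈ J` are not on `α`).  `t₁ < 1`.  `K ∖ C` is closed, so `x' = α (t₁ + δ) ∉ K` for a small `δ > 0` and `α` avoids `K` on `(t₁, t₁ + δ]`.  `W₁ = Ins ω J ∖ (K ∖ C)` is open.  `x` and `x'` are joined in `W₁`: along `α` from `x` to `α t₀`, in `C` to `α t₁`, along `α` to `x'`.  `Spl J p q D₁ D₂` (SCL (1)); THE for `P`.
LCO in `↥W₁` with the line `C` (LIN (1)) and `T` = the points of `Ins ω (D₁ ∪ P)`: saturated (TWO (4) for `D₁ ∪ P`), both sides are present and joined in `W₁` near a point of `C` (CLS for `D₁ ∪ P` and `D₂ ∪ P`, path connected neighbourhood in `W₁`).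
If `x, x'` are on the same side of `P` (both or none in `Ins ω (D₁ ∪ P)`), LCO: they are joined in `W₁ ∖ C = Ins ω J ∖ K`.  Then `x'` is on the same side of every crosscut `P' ⊆ K` as `x` (TWO (4) for `D₁' ∪ P'`; `Ins ω J ∖ K` is disjoint from `D₁' ∪ P' ⊆ J ∪ K`), the hypothesis holds for `x', y`, and the path `α` from `t₁ + δ` to `1` meets fewer components (not `C`): induction.
Otherwise: `x'` and `y` are on the same side of `P`, because `α` avoids `P` after `t₁` (TWO (4)), so `x` and `y` are on different sides of `P ⊆ K`: contradiction to the hypothesis. -/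
def StJIN : Prop := ∀ (S : Type) [MetricSpace S] [LocallyPathConnectedSpace S] [PathConnectedSpace S] (ω : S → Ch S 2 → ℤ) (V : Set S), GR S ω V → ∀ J : Set S, Cel ω V J →
  ∀ K : Set S, IsSCC K → (∃ r₁ r₂ : S, r₁ ≠ r₂ ∧ r₁ ∈ K \ Ins ω J ∧ r₂ ∈ K \ Ins ω J) → ∀ x ∈ Ins ω J \ K, ∀ y ∈ Ins ω J \ K,
    (∀ (p q : S) (D₁ D₂ P : Set S), Spl J p q D₁ D₂ → Crs ω J p q P → P ⊆ K → (x ∈ Ins ω (D₁ ∪ P) ↔ y ∈ Ins ω (D₁ ∪ P))) →
    JoinedIn (Ins ω J \ K) x y

/-- PRE.  A crosscut through two points of `K`.  Uses `StARN`, `StARB`, `StSCL`, `StARX`, `StTWO`, `StCLS`.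
PROOF.  General step (*): if `R` is a set such that `Rᶜ` is path connected, `j ∈ K ∖ R`, `q' ∈ J ∖ R`, then there is an arc `β ⊆ Rᶜ` from a point `p' ∈ J` to a point `z' ∈ K` with `β ∩ J = {p'}`, `β ∩ K = {z'}`, provided `K ∩ J ∩ Rᶜ = ∅`: an arc in `Rᶜ` from `j` to `q'` (ARX), its first point in `J` (ARB (4)), reversed, its first point in `K`.
(i) `K ⊆ Ins ω J`.  (*) with `R = ∅`: `α` from `p ∈ J` to `z ∈ K`.  `αᶜ` is path connected (ARN); (*) with `R = α` (`K`, `J` have points outside `α`): `β` from `p' ∈ J` to `z' ∈ K`, disjoint from `α`.  `K'` = an arc in `K` from `z` to `z'` (SCL (1)).  `P = α ∪ K' ∪ β`: arc from `p` to `p'` (ARB (3)), `P ∩ J = {p, p'}`.  `α ∖ {p}` is connected, disjoint from `J`, contains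
`z ∈ Ins ω J`: in `Ins ω J` (TWO (4)); `β` in the same way.  `z, z' ∈ P ∩ K`.
(ii) `K ∖ {r} ⊆ Ins ω J`, `r ∈ K ∖ Ins ω J`: `r ∈ closure (Ins ω J)`, so `r ∈ J`.  (*) with `R = {r}` (ARN for the point `r`): `β` from `p' ∈ J` to `z' ∈ K`, `r ∉ β`.  `K'` = an arc in `K` from `r` to `z'`.  `P = K' ∪ β`: arc from `r` to `p'`, `P ∩ J = {r, p'}`, `P ∖ {r, p'} ⊆ Ins ω J`, `r, z' ∈ P ∩ K`. -/
def StPRE : Prop := ∀ (S : Type) [MetricSpace S] [LocallyPathConnectedSpace S] [PathConnectedSpace S] (ω : S → Ch S 2 → ℤ) (V : Set S), GR S ω V → ∀ J : Set S, Ess ω V J →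
  ∀ K : Set S, IsSCC K → (∀ r₁ ∈ K \ Ins ω J, ∀ r₂ ∈ K \ Ins ω J, r₁ = r₂) →
    ∃ (p q : S) (P : Set S), Crs ω J p q P ∧ ∃ r₁ ∈ P ∩ K, ∃ r₂ ∈ P ∩ K, r₁ ≠ r₂

/-- S3A.  Subdivision along one curve.  Uses `StPRE`, `StCMP`, `StJIN`, `StSMC`, `StTHE`, `StTWO`, `StCLS`, `StSCL`, `StARB`.
PROOF.  `Φ J'` = the property of the statement.  Step A.  If `K ∖ Ins ω J` has at most one point: PRE gives a crosscut `P₀` of `J` with two points of `K` on it; split `J` (SCL (1)), `node`; the points of `P₀` are not in `Ins ω (D_i ∪ P₀)`.  So it is enough to treat (Step B) `J` with two points of `K` outside `Ins ω J` (THE: the pieces are cells again).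
Step B.  `δ` from SMC for `J` and `η / 2`.  Call components of `K ∩ Ins ω J'` the sets `connectedComponentIn (K ∩ Ins ω J') z`.  Claim: for every cell `J'` with `Ins ω J' ⊆ Ins ω J` such that every component of `K ∩ Ins ω J'` is a component of `K ∩ Ins ω J`: `GS ω Φ J'`; induction on the number (finite, CMP (3)) of the components of `K ∩ Ins ω J'` of diameter `≥ δ`.
Number `> 0`: take one, `C`, `P = C ∪ {p,q}` its crosscut of `J'` (CMP (1)); `node` with `P`; `J₁, J₂` the pieces.  A component of `K ∩ Ins ω J'` different from `C` is connected and disjoint from `P` (`P ∖ {p,q} = C`), so is contained in `Ins ω J₁` or in `Ins ω J₂` (THE, disjoint open sets), where it is a component; so the components of `K ∩ Ins ω J_i` are components of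
`K ∩ Ins ω J'`, not `C`: the number is smaller.
Number `0`: `Φ J'` (`leaf`).  Suppose `x₀ ∈ cl ω J' ∩ F`, `y₀ ∈ cl ω J' ∩ G`.  `cl ω J' = closure (Ins ω J')` (CLS), so there are `x, y ∈ Ins ω J'` close to `x₀`, `y₀`: `x ∈ Ins ω K`, `y ∈ Out ω K`, all distances of `x`, `y` to points of `K` are `> η / 2`.  `x, y` are not joined in `Ins ω J' ∖ K` (TWO (4) for `K`).  JIN: there is a crosscut `P ⊆ K` of `J'`, ends `p, q`, with
`x, y` on different sides: one in `Ins ω (D₁' ∪ P)`, the other in `Ins ω (D₂' ∪ P)`.  `C = P ∖ {p,q}` is a component of `K ∩ Ins ω J'` (connected; closed in it as `P` is closed; open in `K`: `K` minus it is the other arc of `K` between `p, q`), so a component of `K ∩ Ins ω J`; its closure is `P`, so by CMP (1) for `J`: `p, q ∈ J`, `P` is a crosscut of `J`; `diam C < δ`, so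
`diam P < δ`.  `x, y` are on different sides of `P` also in `J` (`Spl J p q D₁ D₂`): the two sets `Ins ω (D_i' ∪ P)` are connected, contained in `Ins ω J ∖ P`, so each is contained in one of `Ins ω (D₁ ∪ P)`, `Ins ω (D₂ ∪ P)`; not both in the same, because near a point `z ∈ C` (neighbourhood `Ins ω J'`) there are points of both `Ins ω (D₁ ∪ P)` and `Ins ω (D₂ ∪ P)` (CLS).
SMC: `cl ω (D_i ∪ P)` has diameter `< η / 2` for `i = 1` or `2`; it contains `x` or `y` and the point `z ∈ P ⊆ K`: contradiction. -/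
def StS3A : Prop := ∀ (S : Type) [MetricSpace S] [LocallyPathConnectedSpace S] [PathConnectedSpace S] (ω : S → Ch S 2 → ℤ) (V : Set S), GR S ω V → LH1 S → ∀ J K : Set S, Cel ω V J → Cel ω V K →
  ∀ (η : ℝ) (F G : Set S), 0 < η → (∀ x ∈ F, x ∈ Ins ω K ∧ ∀ k ∈ K, η ≤ dist x k) → (∀ y ∈ G, y ∉ cl ω K ∧ ∀ k ∈ K, η ≤ dist y k) →
    GS ω (fun J' => ¬((cl ω J' ∩ F).Nonempty ∧ (cl ω J' ∩ G).Nonempty)) J

/-- S3B.  Subdivision into small cells.  Uses `StS3A`, `StSCE`, `StTHE`, `StTWO`, `StCLS`.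
PROOF.  (C) Composition: `Cel ω V J`, `GS ω Φ J`, and `GS ω Ψ J'` for all cells `J'` with `Φ J'` and `cl ω J' ⊆ cl ω J` imply `GS ω Ψ J` (induction on `GS`; the pieces are cells and their `cl` is contained in `cl ω J` by THE).  In the same way every leaf may be assumed to be a cell with `cl ω J' ⊆ cl ω J`: `GS ω Φ J` implies `GS ω (fun J' => Φ J' ∧ Cel ω V J' ∧ cl ω J' ⊆ cl ω J) J`.
For `x ∈ cl ω J ⊆ V`: SCE with the ball of radius `ε / 8` about `x`: `K_x`.  `r_x > 0` with the ball of radius `2 r_x` about `x` in `Ins ω K_x`; `F_x` = the ball of radius `r_x` about `x`, `G_x = {y | ∀ c ∈ cl ω K_x, ε / 8 ≤ dist y c}`, `η_x = min r_x (ε / 8)`.  Compactness: `cl ω J ⊆ F_(x_1) ∪ ... ∪ F_(x_m)`.  S3A and (C), `m` times: `J` is subdivided into cells `J'`,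
`cl ω J' ⊆ cl ω J`, no one meeting both `F_i` and `G_i`, `i = 1..m`.  A point `u ∈ cl ω J'` is in some `F_i`, so `cl ω J'` is disjoint from `G_i`: all its points are at distance `< ε / 8` from a point of `cl ω K_i`, so `< ε / 4` from `x_i`: diameter `≤ ε / 2`. -/
def StS3B : Prop := ∀ (S : Type) [MetricSpace S] [LocallyPathConnectedSpace S] [PathConnectedSpace S] (ω : S → Ch S 2 → ℤ) (V : Set S), GR S ω V → LH1 S → ∀ J : Set S, Cel ω V J →
  ∀ ε : ℝ, 0 < ε → GS ω (fun J' => Metric.diam (cl ω J') < ε) J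

end Pool.Agent.Helper13.TW
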