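import Pool.Agent.Helper13.TW.StD

/-!
# Project TW, part E: cell systems, back and forth, the plane (statements)
-/

set_option autoImplicit false

namespace Pool.Agent.Helper13.TW

open Set Topology Pool.Agent.Helper13.TR

/-- CSS.  The cells of a 2-manifold are a cell system.  Uses `StTWO`, `StTHE`, `StACC`, `StS3B`, `StSCL`, `StARB`.
PROOF.  cpt: TWO.  spl: `p ≠ q` in `J` (ARB), ACC: a crosscut `P`; `E_i = cl ω (D_i ∪ P)`, everything by THE.  fin: `GS ω (diam (cl ω J') < ε) J` (S3B) implies `GT` by induction on `GS` (for cells, THE). -/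
def StCSS : Prop := ∀ (S : Type) [MetricSpace S] [LocallyPathConnectedSpace S] [PathConnectedSpace S] (ω : S → Ch S 2 → ℤ) (V : Set S), GR S ω V → LH1 S →
  CSy fun E J => Cel ω V J ∧ E = cl ω J

/-- JSP.  Joint cut of a pair.  Uses `StARB`, `StSCL`.
PROOF.  `p' = h p`, `q' = h q`, `D_i' = h '' D_i`: `Spl M.J' p' q' D₁' D₂'` (ARB (6), `h` injective on `J`).  `CSy.spl` for `cell'`: `P'`, `E₁'`, `E₂'`.  `f : P → P'` (ARB (5)), `f p = p'`, `f q = q'`.  `g = f` on `P`, `g = h` elsewhere (they agree at `p`, `q`).  `g` is continuous on `D_i ∪ P` (closed sets, agree on the intersection `{p,q}`) and injective on `J ∪ P`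
(`h (J) ∩ f (P) = J' ∩ P' = {p', q'}`), `g '' (D_i ∪ P) = D_i' ∪ P'`.  `M_i = (E_i, D_i ∪ P, E_i', D_i' ∪ P', g)`.  `E₁ ∩ E₂ = P`, `E₁' ∩ E₂' = P'`; `E_i ∩ J = D_i`, `E_i' ∩ J' = D_i'`.  (`M₁ ≠ M₂` is not needed.) -/
def StJSP : Prop := ∀ (X X' : Type) [MetricSpace X] [MetricSpace X'] (cell : Set X → Set X → Prop) (cell' : Set X' → Set X' → Prop), CSy cell → CSy cell' →
  ∀ M : MP X X', Val cell cell' M → ∀ (p q : X) (D₁ D₂ P E₁ E₂ : Set X), Splt M.E M.J p q D₁ D₂ P E₁ E₂ → cell E₁ (D₁ ∪ P) → cell E₂ (D₂ ∪ P) →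
    ∃ M₁ M₂ : MP X X', LR cell cell' M {M₁, M₂} ∧ M₁.E = E₁ ∧ M₁.J = D₁ ∪ P ∧ M₂.E = E₂ ∧ M₂.J = D₂ ∪ P

/-- LRC.  Composition of joint subdivisions; the trivial one.
PROOF.  (2) clear.  (1) `A ∈ L' N`, `B ∈ L' N'`.  If `N = N'` everything is in `LR N (L' N)`.  Let `N ≠ N'`.  dis: `A.E ∩ B.E ⊆ N.E ∩ N'.E ⊆ N.J ∩ N'.J` and `A.E ∩ N.J ⊆ A.J` (bdy), same for `B`.  dis' in the same way (bdy').  agr: `x ∈ A.J ∩ B.J ⊆ A.E ∩ B.E ⊆ N.J ∩ N'.J`: `A.h x = N.h x = N'.h x = B.h x` (agb, agr, agb).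
inj: `u = A.h x = B.h y ∈ A.E' ∩ B.E' ⊆ N.E' ∩ N'.E' ⊆ N.J' ∩ N'.J'`; `u = N.h x₁ = N'.h y₁` with `x₁ ∈ N.J`, `y₁ ∈ N'.J`; `x = x₁`, `y = y₁` (inb), `x₁ = y₁` (inj).  bdy: `A.E ∩ M.J ⊆ A.E ∩ N.E ∩ M.J ⊆ A.E ∩ N.J ⊆ A.J`.  bdy' the same.  agb: `x ∈ A.J ∩ M.J`: `x ∈ N.J`, `A.h x = N.h x = M.h x`.
inb: `u = A.h x = M.h y`, `u ∈ N.E' ∩ M.J' ⊆ N.J'`, `u = N.h x₁`, `x = x₁` (inb for `N`), `x₁ = y` (inb for `M`).  (`J ⊆ E` and `J' ⊆ E'` by `CSy.cpt`.) -/
def StLRC : Prop := ∀ (X X' : Type) [MetricSpace X] [MetricSpace X'] (cell : Set X → Set X → Prop) (cell' : Set X' → Set X' → Prop), CSy cell → CSy cell' →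
  (∀ (M : MP X X') (L : Set (MP X X')) (L' : MP X X' → Set (MP X X')), Val cell cell' M → LR cell cell' M L → (∀ N ∈ L, LR cell cell' N (L' N)) → LR cell cell' M (⋃ N ∈ L, L' N)) ∧
  ∀ M : MP X X', Val cell cell' M → LR cell cell' M {M}

/-- LRA.  One-sided small joint subdivisions.  Uses `StJSP`, `StLRC`.
PROOF.  `GT cell ε M.E M.J` by `CSy.fin`; induction on `GT`, for all valid pairs `M` with the given `M.E`, `M.J`.  leaf: `{M}`.  node: JSP: `M₁, M₂`; induction hypothesis: `L₁`, `L₂` for `M₁, M₂`; LRC with `L' M₁ = L₁`, `L' M₂ = L₂` (if `M₁ = M₂` take one of them). -/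
def StLRA : Prop := ∀ (X X' : Type) [MetricSpace X] [MetricSpace X'] (cell : Set X → Set X → Prop) (cell' : Set X' → Set X' → Prop), CSy cell → CSy cell' →
  ∀ M : MP X X', Val cell cell' M → ∀ ε : ℝ, 0 < ε → ∃ L : Set (MP X X'), LR cell cell' M L ∧ ∀ N ∈ L, Metric.diam N.E < ε

/-- LRB.  Small joint subdivisions.  Uses `StLRA`, `StLRC`.
PROOF.  Swap: for a valid pair `N : MP X X'` let `sw N = (N.E', N.J', N.E, N.J, g)`, `g` an inverse of `N.h` on `N.J` (`Function.invFunOn`): valid for `cell', cell` (the inverse of a continuous injective map of a compact set onto a Hausdorff one is continuous).  If `LR cell' cell (sw M) L'` then `LR cell cell' M L` for `L` = the set of the swaps of the elements of `L'` (all conditions are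
symmetric: agr for one is inj for the other).  LRA for `sw M`: subdivision with `diam N.E' < ε`; then LRA for every member, LRC (`N.E'` only becomes smaller: `un'`, compact sets are bounded). -/
def StLRB : Prop := ∀ (X X' : Type) [MetricSpace X] [MetricSpace X'] (cell : Set X → Set X → Prop) (cell' : Set X' → Set X' → Prop), CSy cell → CSy cell' →
  ∀ M : MP X X', Val cell cell' M → ∀ ε : ℝ, 0 < ε → ∃ L : Set (MP X X'), LR cell cell' M L ∧ ∀ N ∈ L, Metric.diam N.E < ε ∧ Metric.diam N.E' < ε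

/-- BF.  Any two cells are homeomorphic.  Uses `StLRB`, `StLRC`, `StARB`.
PROOF.  `h₀`: `Spl J p q D₁ D₂`, `Spl J' p' q' D₁' D₂'`, ARB (5): `f_i : D_i → D_i'` with `f_i p = p'`, `f_i q = q'`; `h₀ = f₁` on `D₁`, `f₂` on `D₂`.  `M₀ = (E, J, E', J', h₀)` is valid.  By LRB and LRC there are sets `L_n`, `L_0 = {M₀}`, `LR M₀ L_n`, `L_(n+1) = ⋃ L' N` with `LR N (L' N)` for `N ∈ L_n`, all members of `L_(n+1)` with `diam N.E, diam N.E' < 1/(n+1)`.
`R_n = {(x,x') | ∃ N ∈ L_n, x ∈ N.E ∧ x' ∈ N.E'}`: compact, decreasing; `R = ⋂ R_n`.  For `x ∈ E` there is exactly one `x'` with `(x,x') ∈ R`: existence by compactness (`x ∈ N.E` for some `N ∈ L_n`, `N.E'` is nonempty).  Uniqueness: `x ∈ N₁.E ∩ N₂.E`, `x' ∈ N₁.E'`, `x'' ∈ N₂.E'`, `N_i ∈ L_n`; `N₁ = N₂`: `dist x' x'' < 1/n`; otherwise `x ∈ N₁.J ∩ N₂.J` (dis) and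
`N₁.h x = N₂.h x ∈ N₁.E' ∩ N₂.E'` (agr): `dist x' x'' < 2/n`.  For `x' ∈ E'` exactly one `x`: in the same way with dis' and inj: `x' = N₁.h x₁ = N₂.h x₂`, `x₁ = x₂ ∈ N₁.E ∩ N₂.E`.  The projections of the compact space `R` to `E` and `E'` are continuous bijections, so homeomorphisms; `f` = their composition.
`x ∈ J`: `f x = h₀ x`: for all `n`, `x ∈ N.E` implies `x ∈ N.J` (bdy), `N.h x = h₀ x ∈ N.E'` (agb).  Conversely `f x ∈ J'`: `f x = h₀ y = f y`, `y ∈ J`, `x = y`. -/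
def StBF : Prop := ∀ (X X' : Type) [MetricSpace X] [MetricSpace X'] (cell : Set X → Set X → Prop) (cell' : Set X' → Set X' → Prop), CSy cell → CSy cell' →
  ∀ (E J : Set X) (E' J' : Set X'), cell E J → cell' E' J' → ∃ f : ↥E ≃ₜ ↥E', ∀ x : ↥E, (x : X) ∈ J ↔ (f x : X') ∈ J'

/-- MD1.  Convex bodies in the plane.  Uses `StARB`, `StSCL`.
PROOF.  (1) two half circles.  (2) `exists_homeomorph_image_interior_closure_frontier_eq_unitBall` (Mathlib).  (3) `C` is the closure of its interior; so there are interior points `u'`, `v'` of `C` with `f u' < t < f v'`, and an interior point `w₀` of `C` with `f w₀ = t`.  `C ∩ {f = t}` is a compact convex subset of a line, a neighbourhood of `w₀` in the line: a segment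
`[p,q]`, `p ≠ q`, `p, q ∈ frontier C`; the open segment is in `interior C` (`w₀` is interior, `C` convex).  So `IsArc P p q`, `P ∩ frontier C = {p,q}`.  `D₁ = frontier C ∩ {f ≤ t}`, `D₂ = frontier C ∩ {t ≤ f}`: closed, union `frontier C`, intersection `{p,q}`, and `D_i ∖ {p,q}` is nonempty (a point of `C` where `f` is minimal is in the frontier).  `frontier C` is a simple
closed curve (1), (2), SCL (4); SCL (1), (2): `Spl (frontier C) p q D₁ D₂`.  `interior C₁ = interior C ∩ {f < t}`, so `frontier C₁ = C₁ ∖ interior C₁ = D₁ ∪ P`. -/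
def StMD1 : Prop :=
  IsSCC (Metric.sphere (0 : ℂ) 1) ∧
  (∀ C : Set ℂ, IsCompact C → Convex ℝ C → (interior C).Nonempty → MCell C (frontier C)) ∧
  ∀ C : Set ℂ, IsCompact C → Convex ℝ C → (interior C).Nonempty → ∀ (f : ℂ →ₗ[ℝ] ℝ) (t : ℝ), (∃ u ∈ C, f u < t) → (∃ v ∈ C, t < f v) →
    (interior (C ∩ {z | f z ≤ t})).Nonempty ∧ (interior (C ∩ {z | t ≤ f z})).Nonempty ∧
    ∃ (p q : ℂ) (D₁ D₂ : Set ℂ), Splt C (frontier C) p q D₁ D₂ (C ∩ {z | f z = t}) (C ∩ {z | f z ≤ t}) (C ∩ {z | t ≤ f z}) ∧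
      frontier (C ∩ {z | f z ≤ t}) = D₁ ∪ (C ∩ {z | f z = t}) ∧ frontier (C ∩ {z | t ≤ f z}) = D₂ ∪ (C ∩ {z | f z = t})

/-- MD2.  Cutting the cells of the plane.  Uses `StMD1`, `StSCL`, `StARB`.
PROOF.  (1) homeomorphic image of the closed disc; SCL (4).  (2) `h` with `h '' closedBall = E`, `h '' sphere = J`; `u = h⁻¹ p ≠ v = h⁻¹ q` on the unit circle.  `f` = a real linear function with `f u = f v = t`, not constant (`f z = Re (conj (I (v - u)) z)`); it takes values `< t` and `> t` on the closed disc (strict convexity, or: the line through `u, v` contains an interior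
point of the disc).  MD1 (3) for `C = closedBall`: `Splt` with ends `p₁, q₁` where `{p₁, q₁} = sphere ∩ {f = t} = {u, v}` (a line meets the circle in at most two points; exchange `p₁, q₁` if necessary), arcs `A₁, A₂`.  `h '' A₁`, `h '' A₂` are `D₁`, `D₂` in some order (SCL (2)).  `P = h '' (C ∩ {f = t})`, `E_i = h '' C_i` in the corresponding order, `MCell` by MD1 (2)
and composition with `h`. -/
def StMD2 : Prop :=
  (∀ E J : Set ℂ, MCell E J → IsCompact E ∧ J ⊆ E ∧ IsSCC J) ∧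
  ∀ (E J : Set ℂ) (p q : ℂ) (D₁ D₂ : Set ℂ), MCell E J → Spl J p q D₁ D₂ → ∃ P E₁ E₂ : Set ℂ, Splt E J p q D₁ D₂ P E₁ E₂ ∧ MCell E₁ (D₁ ∪ P) ∧ MCell E₂ (D₂ ∪ P)

/-- MD3.  Small subdivisions of the cells of the plane.  Uses `StMD1`, `StARB`.
PROOF.  `h` as in `MCell`; `δ` with `dist (h z) (h w) < ε / 2` for `z, w ∈ closedBall`, `dist z w < δ`.  Finite list `Λ` of pairs `(f, t)`, `f = re` or `im`, `t = k δ / 4`, `|k| ≤ 8 / δ + 1`.  Claim: for every sublist `Λ'` and every convex body `C ⊆ closedBall` (compact, convex, nonempty interior) such that for all `(f, t) ∈ Λ` not in `Λ'` `C ⊆ {f ≤ t}` or `C ⊆ {t ≤ f}`: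
`GT MCell ε (h '' C) (h '' frontier C)`; induction on `Λ'`.  `Λ' = []`: `C` is in a square of side `δ / 4`, `diam (h '' C) ≤ ε / 2 < ε`: leaf.  `Λ' = (f,t) :: Λ''`: if `f` takes values `< t` and `> t` on `C`: node with MD1 (3) transported by `h` (`MCell (h '' C_i) (h '' frontier C_i)` by MD1 (2)), induction hypothesis for both pieces; otherwise induction hypothesis for `C`.
Apply it to `C = closedBall`. -/
def StMD3 : Prop := ∀ ε : ℝ, 0 < ε → ∀ E J : Set ℂ, MCell E J → GT MCell ε E J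

end Pool.Agent.Helper13.TW
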